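import Pool.Agent.Run7.h207.Ortho.Faces

/-! # Chains of faces and overlaps -/

set_option autoImplicit false

namespace Pool.Agent.Run7.h207.Ortho

open Relation

theorem nbr_cases {c c' : T3} {i i' : Fin 6} {p q : Pt 3} (hs : sq c i ∈ Bd KK)
    (ht : sq c' i' ∈ Bd KK) (hne : sq c i ≠ sq c' i') (hsh : Share (sq c i) (sq c' i') p q) :
    ∃ j k, q = p + dvec k ∧ ax i ≠ ax j ∧ ax i ≠ ax k ∧ ax j ≠ ax k ∧
      cen (sq c i) - p - q = -dvec j ∧
      ((i' = i ∧ part c' = part c ∧ cen (sq c' i') - p - q = dvec j) ∨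
        (okAdj (part c, i) (part c', i') = true ∧ ∃ ε : ℤ, ε * ε = 1 ∧
          dvec i' = ε • dvec j ∧ (∀ x, dot x i' = ε * dot x j) ∧
          cen (sq c' i') - p - q = -(ε • dvec i))) := by
  rw [sq_mem_KK] at hs ht
  rcases share_cases hsh with ⟨rfl, rfl⟩ | ⟨rfl, -⟩ | ⟨j, k, h0, a1, a2, a3, h1, h⟩
  · exact absurd rfl hne
  · rw [hs.2] at ht
    exact absurd ht.1 (by simp)
  · refine ⟨j, k, h0, a1.symm, a2.symm, a3.symm, h1, ?_⟩
    have hn := nbr_check c (mem_cellsK hs.1) i j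
    unfold nbrB at hn
    simp only [Bool.or_eq_true, Bool.and_eq_true, decide_eq_true_eq, Bool.not_eq_true'] at hn
    rcases hn with (hn | hn) | ⟨⟨n1, n2⟩, n3⟩
    · rw [hs.2] at hn
      exact absurd hn (by simp)
    · exact absurd hn a1
    · rcases h with ⟨rfl, rfl, h⟩ | ⟨rfl, rfl, h⟩ | ⟨rfl, rfl, h⟩ | ⟨rfl, rfl⟩ | ⟨rfl, rfl⟩ | ⟨rfl, rfl⟩
      · refine Or.inl ⟨rfl, ?_, h⟩
        rcases n1 with n1 | n1
        · rw [ht.1, ht.2] at n1
          exact absurd n1 (by simp)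
        · exact n1
      · refine Or.inr ⟨?_, 1, by norm_num, by rw [one_smul], fun x => by rw [one_mul], ?_⟩
        · rcases n2 with n2 | n2
          · rw [ht.2] at n2
            exact absurd n2 (by simp)
          · exact n2
        · rw [h, one_smul]
      · refine Or.inr ⟨?_, -1, by norm_num, ?_, fun x => by rw [dot_opp]; ring, ?_⟩
        · rcases n3 with n3 | n3
          · rw [ht.1] at n3
            exact absurd n3 (by simp)
          · exact n3.2
        · rw [dvec_opp, neg_one_smul]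
        · rw [h, neg_one_smul, neg_neg]
      · exfalso
        have e : c + dv i + dv j + dv (opp i) = c + dv j := by rw [opp_opp]; abel
        rw [e] at ht
        rcases n3 with n3 | n3
        · rw [ht.1] at n3
          exact absurd n3 (by simp)
        · rw [ht.2] at n3
          exact absurd n3.1 (by simp)
      · exfalso
        have e : c + dv j + dv (opp j) = c := by rw [opp_opp]; abel
        rw [e, hs.1] at ht
        exact absurd ht.2 (by simp)
      · exfalso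
        rw [hs.2] at ht
        exact absurd ht.1 (by simp)

/-- the relation: joined across a fold -/
def UU (cut : Set (Sym2 (Pt 3))) (L M : Lab) : Prop :=
  L ≠ M ∧ ∃ a b p q, isSq a L = true ∧ isSq b M = true ∧ Uncut cut (sq a L.2) (sq b M.2) p q

theorem Uncut.symm {cut : Set (Sym2 (Pt 3))} {s t : Pt 3 × Pt 3} {p q : Pt 3}
    (h : Uncut cut s t p q) : Uncut cut t s p q := by
  obtain ⟨⟨h1, h2, h3, h4, h5⟩, h6⟩ := h
  refine ⟨⟨h1, h4, h5, h2, h3⟩, ?_⟩
  rcases h6 with h6 | h6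
  · exact Or.inl h6.symm
  · exact Or.inr h6

theorem Uncut.swap {cut : Set (Sym2 (Pt 3))} {s t : Pt 3 × Pt 3} {p q : Pt 3}
    (h : Uncut cut s t p q) : Uncut cut s t q p := by
  obtain ⟨⟨h1, h2, h3, h4, h5⟩, h6⟩ := h
  refine ⟨⟨h1.symm, h3, h2, h5, h4⟩, ?_⟩
  rcases h6 with h6 | h6
  · exact Or.inl h6
  · right
    rwa [Sym2.eq_swap]

theorem UU_symm {cut : Set (Sym2 (Pt 3))} {L M : Lab} (h : UU cut L M) : UU cut M L := by
  obtain ⟨h1, a, b, p, q, h2, h3, h4⟩ := h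
  exact ⟨h1.symm, b, a, p, q, h3, h2, h4.symm⟩

theorem sq_lab_ne {a b : T3} {L M : Lab} (h : L ≠ M) (ha : isSq a L = true)
    (hb : isSq b M = true) : sq a L.2 ≠ sq b M.2 := by
  intro he
  obtain ⟨rfl, h2⟩ := sq_inj he
  exact h (Prod.ext ((isSq_iff.1 ha).2.symm.trans (isSq_iff.1 hb).2) h2)

theorem UU_ok {cut : Set (Sym2 (Pt 3))} {L M : Lab} (h : UU cut L M) : okAdj L M = true := by
  obtain ⟨h1, a, b, p, q, h2, h3, h4, -⟩ := h
  have hs := isSq_iff.1 h2
  have ht := isSq_iff.1 h3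
  obtain ⟨j, k, -, -, -, -, -, h5⟩ := nbr_cases hs.1 ht.1 (sq_lab_ne h1 h2 h3) h4
  rcases h5 with ⟨h5, h6, -⟩ | ⟨h5, -⟩
  · refine absurd (Prod.ext ?_ h5.symm) h1
    rw [← hs.2, ← ht.2, h6]
  · rw [hs.2, ht.2] at h5
    exact h5

variable {cut : Set (Sym2 (Pt 3))} {φ : Pt 3 × Pt 3 → Pt 3 → ℂ}

theorem psi_class (h : IsEdgeUnfolding KK cut φ) {L : Lab} {a b : T3} (ha : isSq a L = true)
    (hb : isSq b L = true) (x : Pt 3) : Psi φ (sq b L.2) x = Psi φ (sq a L.2) x := by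
  have key : ∀ s t, ReflTransGen (FlatAdj KK) s t → Psi φ t x = Psi φ s x := by
    intro s t hst
    induction hst with
    | refl => rfl
    | @tail u v _ h2 ih =>
      rw [← ih]
      by_cases huv : u = v
      · rw [huv]
      · obtain ⟨h3, h4, h5, p, q, h6⟩ := h2
        obtain ⟨c, i, rfl⟩ := exists_sq h3
        obtain ⟨c', i', rfl⟩ := exists_sq h4
        have hi : i' = i := by
          rw [normal_sq, normal_sq] at h5
          exact (dv_inj (congrArg toT h5)).symm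
        obtain ⟨j, k, e1, e2, e3', e4, e5, e6⟩ := nbr_cases h3 h4 huv h6
        have hu : Uncut cut (sq c i) (sq c' i') p q := ⟨h6, Or.inl h5⟩
        rcases e6 with ⟨-, -, e6⟩ | ⟨e6, -⟩
        · exact flat_psi h h3 h4 huv h6 (h.glued _ h3 _ h4 _ _ hu)
            (h.glued _ h3 _ h4 _ _ hu.swap) e2 e3' e4 (normal_sq _ _)
            (by rw [normal_sq, hi]) e1 e5 e6 x
        · exfalso
          unfold okAdj at e6
          rw [Bool.and_eq_true, decide_eq_true_eq] at e6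
          exact e6.1 (by rw [hi])
  exact key _ _ (class_conn L ha hb)

theorem exists_isSq (L : Lab) : ∃ a, isSq a L = true := by
  obtain ⟨a, ha⟩ := List.exists_mem_of_ne_nil _ (class_ne L)
  exact ⟨a, (List.mem_filter.1 ha).2⟩

noncomputable def PsiL (φ : Pt 3 × Pt 3 → Pt 3 → ℂ) (L : Lab) (x : T3) : ℂ :=
  Psi φ (sq (exists_isSq L).choose L.2) (pt x)

theorem psiL_eq (h : IsEdgeUnfolding KK cut φ) {L : Lab} {a : T3} (ha : isSq a L = true)
    (x : T3) : PsiL φ L x = Psi φ (sq a L.2) (pt x) :=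
  psi_class h ha (exists_isSq L).choose_spec _

def rho (L M : Lab) (x : T3) : T3 :=
  (x.1 - (dotT x L.2 + dotT x M.2 - off L - off M) * (dv M.2).1,
    x.2.1 - (dotT x L.2 + dotT x M.2 - off L - off M) * (dv M.2).2.1,
    x.2.2 - (dotT x L.2 + dotT x M.2 - off L - off M) * (dv M.2).2.2)

theorem dot_cen {a : T3} {L : Lab} (ha : isSq a L = true) : dot (cen (sq a L.2)) L.2 = off L := by
  rw [cen_sq, dot_pt, dotT, off, ← coord_lev ha]
  have h1 : coord (ax L.2) (cenT a L.2) = 2 * coord (ax L.2) a + sgn L.2 + 1 := by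
    have h2 : coord (ax L.2) (dv L.2) = sgn L.2 := by
      generalize L.2 = i
      revert i; decide
    rw [← h2]
    unfold cenT
    generalize ax L.2 = m
    fin_cases m
    · show a.1 + (a.1 + (dv L.2).1) + 1 = 2 * a.1 + (dv L.2).1 + 1
      ring
    · show a.2.1 + (a.2.1 + (dv L.2).2.1) + 1 = 2 * a.2.1 + (dv L.2).2.1 + 1
      ring
    · show a.2.2 + (a.2.2 + (dv L.2).2.2) + 1 = 2 * a.2.2 + (dv L.2).2.2 + 1
      ring
  rw [h1]
  have := sgn_sq L.2
  linear_combination this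

theorem psi_fold (h : IsEdgeUnfolding KK cut φ) {L M : Lab} (hLM : UU cut L M) (x : T3) :
    PsiL φ M x = PsiL φ L (rho L M x) := by
  obtain ⟨h1, a, b, p, q, h2, h3, h4⟩ := hLM
  rw [psiL_eq h h2, psiL_eq h h3]
  have hs := (isSq_iff.1 h2)
  have ht := (isSq_iff.1 h3)
  have hne := sq_lab_ne h1 h2 h3
  obtain ⟨j, k, e1, e2, e3', e4, e5, e6⟩ := nbr_cases hs.1 ht.1 hne h4.1
  rcases e6 with ⟨h5, h6, -⟩ | ⟨-, ε, f1, f2, f3, f4⟩
  · refine absurd (Prod.ext ?_ h5.symm) h1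
    rw [← hs.2, ← ht.2, h6]
  · rw [fold_psi h hs.1 ht.1 hne h4.1 (h.glued _ hs.1 _ ht.1 _ _ h4)
      (h.glued _ hs.1 _ ht.1 _ _ h4.swap) f1 e2 e3' e4 (normal_sq _ _) (normal_sq _ _) f2 f3 e1 e5
      f4, dot_cen h2, dot_cen h3, dot_pt, dot_pt]
    congr 1
    funext m
    fin_cases m <;> rfl

/-- the last face of a chain -/
def lastL : Lab → List Lab → Lab
  | r, [] => r
  | _, l :: ls => lastL l ls

def unroll : Lab → List Lab → T3 → T3
  | _, [], x => x
  | r, l :: ls, x => rho r l (unroll l ls x)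

def chainU (U : Lab → Lab → Prop) : Lab → List Lab → Prop
  | _, [] => True
  | r, l :: ls => U r l ∧ chainU U l ls

theorem psi_unroll (h : IsEdgeUnfolding KK cut φ) (ls : List Lab) : ∀ (r : Lab) (x : T3),
    chainU (UU cut) r ls → PsiL φ (lastL r ls) x = PsiL φ r (unroll r ls x) := by
  induction ls with
  | nil => intro r x _; rfl
  | cons l ls ih =>
    rintro r x ⟨h1, h2⟩
    show PsiL φ (lastL l ls) x = PsiL φ r (rho r l (unroll l ls x))
    rw [ih l x h2, psi_fold h h1]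

def goodOv (r : Lab) (ch1 ch2 : List Lab) (c : T3 × T3) : Bool :=
  isSq c.1 (lastL r ch1) && isSq c.2 (lastL r ch2) &&
    !(decide (c.1 = c.2) && decide ((lastL r ch1).2 = (lastL r ch2).2)) &&
    decide (∀ j : Fin 6, ax r.2 ≠ ax j →
      dotT (unroll r ch1 (cenT c.1 (lastL r ch1).2)) j =
        dotT (unroll r ch2 (cenT c.2 (lastL r ch2).2)) j)

theorem no_overlap (h : IsEdgeUnfolding KK cut φ) {r : Lab} {ch1 ch2 : List Lab} {c : T3 × T3}
    (hg : goodOv r ch1 ch2 c = true) (h1 : chainU (UU cut) r ch1) (h2 : chainU (UU cut) r ch2) :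
    False := by
  unfold goodOv at hg
  simp only [Bool.and_eq_true, Bool.not_eq_true', decide_eq_true_eq, Bool.and_eq_false_imp,
    decide_eq_false_iff_not] at hg
  obtain ⟨⟨⟨g1, g2⟩, g3⟩, g4⟩ := hg
  have hne : sq c.1 (lastL r ch1).2 ≠ sq c.2 (lastL r ch2).2 := by
    intro he
    obtain ⟨e1, e2⟩ := sq_inj he
    exact g3 e1 e2
  refine center_ne h (isSq_iff.1 g1).1 (isSq_iff.1 g2).1 hne ?_
  have k1 := psi_unroll h ch1 r (cenT c.1 (lastL r ch1).2) h1
  have k2 := psi_unroll h ch2 r (cenT c.2 (lastL r ch2).2) h2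
  rw [psiL_eq h g1] at k1
  rw [psiL_eq h g2] at k2
  obtain ⟨a, ha⟩ := exists_isSq r
  rw [psiL_eq h ha] at k1 k2
  have hjk : ∃ j k : Fin 6, ax r.2 ≠ ax j ∧ ax r.2 ≠ ax k ∧ ax j ≠ ax k := by
    generalize r.2 = i
    revert i; decide
  obtain ⟨j, k, hij, hik, hjk⟩ := hjk
  have k3 : A φ (sq a r.2) (dvec r.2) = 0 := by
    rw [← normal_sq a]
    exact A_normal (isSq_iff.1 ha).1
  have k4 : Psi φ (sq a r.2) (pt (unroll r ch1 (cenT c.1 (lastL r ch1).2))) =
      Psi φ (sq a r.2) (pt (unroll r ch2 (cenT c.2 (lastL r ch2).2))) := by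
    rw [Psi, Psi, A_decomp _ hij hik hjk, A_decomp _ hij hik hjk
      (pt (unroll r ch2 (cenT c.2 (lastL r ch2).2))), k3, dot_pt, dot_pt, dot_pt, dot_pt, dot_pt,
      dot_pt, g4 j hij, g4 k hik]
    ring
  rw [cen_sq, cen_sq]
  rw [k4] at k1
  have := k1.trans k2.symm
  exact this

end Pool.Agent.Run7.h207.Ortho
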