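import Pool.Agent.Run7.h207.Ortho.Conn

/-! # A checker for planar solids -/

set_option autoImplicit false

namespace Pool.Agent.Run7.h207.Ortho

open Relation

def adj2 (a b : ℤ × ℤ) : Bool := (a.1 - b.1).natAbs + (a.2 - b.2).natAbs == 1

/-- the range of the coordinates of cells -/
def rng : List ℤ := [-2, -1, 0, 1, 2, 3, 4, 5, 6, 7]

theorem mem_rng {x : ℤ} : x ∈ rng ↔ -2 ≤ x ∧ x < 8 := by
  simp only [rng, List.mem_cons, List.not_mem_nil, or_false]
  omega

/-- the range of the coordinates of corners -/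
def rngc : List ℤ := [-2, -1, 0, 1, 2, 3, 4, 5, 6, 7, 8]

theorem mem_rngc {x : ℤ} : x ∈ rngc ↔ -2 ≤ x ∧ x < 9 := by
  simp only [rngc, List.mem_cons, List.not_mem_nil, or_false]
  omega

/-- offsets of the cells at a corner -/
def offs2 : List (ℤ × ℤ) := [(-1, -1), (-1, 0), (0, -1), (0, 0)]

def rayB2 (f : ℤ → ℤ → Bool) (x y : ℤ) : Bool :=
  (rng.all fun x' => decide (x' ≤ x) || !f x' y) || (rng.all fun x' => decide (x ≤ x') || !f x' y) ||
  (rng.all fun y' => decide (y' ≤ y) || !f x y') || (rng.all fun y' => decide (y ≤ y') || !f x y')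

def localB2 (f : ℤ → ℤ → Bool) (x y : ℤ) : Bool :=
  connB adj2 (offs2.filter fun o => f (x + o.1) (y + o.2)) &&
  connB adj2 (offs2.filter fun o => !f (x + o.1) (y + o.2))

def cells2 (f : ℤ → ℤ → Bool) : List (ℤ × ℤ) := (rng.product rng).filter fun a => f a.1 a.2

def solid2B (f : ℤ → ℤ → Bool) : Bool :=
  !(cells2 f).isEmpty && connB adj2 (cells2 f) &&
  (rng.all fun x => rng.all fun y => f x y || rayB2 f x y) &&
  (rngc.all fun x => rngc.all fun y => localB2 f x y)

theorem adj_of_adj2 (p : Pt 2) (a b : ℤ × ℤ) (h : adj2 a b = true) :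
    Adj (![p 0 + a.1, p 1 + a.2] : Pt 2) ![p 0 + b.1, p 1 + b.2] := by
  unfold adj2 at h
  unfold Adj
  simp only [Fin.sum_univ_two, Matrix.cons_val_zero, Matrix.cons_val_one]
  have h1 : (a.1 - b.1).natAbs + (a.2 - b.2).natAbs = 1 := by simpa using h
  have h2 : p 0 + a.1 - (p 0 + b.1) = a.1 - b.1 := by ring
  have h3 : p 1 + a.2 - (p 1 + b.2) = a.2 - b.2 := by ring
  rw [h2, h3, ← Int.natCast_natAbs, ← Int.natCast_natAbs]
  exact_mod_cast h1

theorem eta2 (a : Pt 2) : (![a 0, a 1] : Pt 2) = a := by
  funext i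
  fin_cases i <;> rfl

theorem solid_of_check2 (f : ℤ → ℤ → Bool) (hf : ∀ x y, f x y = true → x ∈ rng ∧ y ∈ rng)
    (h : solid2B f = true) : Solid {a : Pt 2 | f (a 0) (a 1) = true} := by
  simp only [solid2B, Bool.and_eq_true] at h
  obtain ⟨⟨⟨h0, h1⟩, h2⟩, h3⟩ := h
  have hmem : ∀ x : Pt 2, x ∈ {a : Pt 2 | f (a 0) (a 1) = true} ↔
      ∃ a ∈ cells2 f, (fun a : ℤ × ℤ => (![a.1, a.2] : Pt 2)) a = x := by
    intro x
    constructor
    · intro hx
      refine ⟨(x 0, x 1), ?_, eta2 x⟩
      rw [cells2, List.mem_filter]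
      refine ⟨?_, hx⟩
      rw [List.pair_mem_product]
      exact hf _ _ hx
    · rintro ⟨a, ha, rfl⟩
      rw [cells2, List.mem_filter] at ha
      exact ha.2
  have hnot : ∀ x y, ¬ (x ∈ rng ∧ y ∈ rng) → f x y = false := by
    intro x y hxy
    by_contra hne
    exact hxy (hf x y (by simpa using hne))
  refine ⟨?_, ?_, ?_, ?_, ?_, ?_⟩
  · refine Set.Finite.subset ((List.finite_toSet (cells2 f)).image
      (fun a : ℤ × ℤ => (![a.1, a.2] : Pt 2))) ?_
    intro x hx
    obtain ⟨a, ha, h⟩ := (hmem x).1 hx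
    exact ⟨a, ha, h⟩
  · cases hc : cells2 f with
    | nil => rw [hc] at h0; simp at h0
    | cons a t =>
      exact ⟨_, (hmem _).2 ⟨a, by rw [hc]; exact List.mem_cons_self, rfl⟩⟩
  · refine conn_of_connB adj2 (fun a : ℤ × ℤ => (![a.1, a.2] : Pt 2)) ?_ _ h1 _ hmem
    intro a b hab
    simpa using adj_of_adj2 0 a b hab
  · refine conn_compl_of_rays le_rfl _ 8 ?_ ?_
    · intro a ha i
      have h4 := hf _ _ ha
      rw [mem_rng, mem_rng] at h4
      rw [abs_le]
      fin_cases i
      · exact ⟨by simp only [Fin.zero_eta]; omega, by simp only [Fin.zero_eta]; omega⟩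
      · exact ⟨by simp only [Fin.mk_one]; omega, by simp only [Fin.mk_one]; omega⟩
    · intro a ha
      have ha' : f (a 0) (a 1) = false := by simpa using ha
      have up0 : ∀ k : ℤ, (Function.update a 0 k : Pt 2) ∉ {a : Pt 2 | f (a 0) (a 1) = true} ↔
          f k (a 1) = false := by
        intro k
        simp
      have up1 : ∀ k : ℤ, (Function.update a 1 k : Pt 2) ∉ {a : Pt 2 | f (a 0) (a 1) = true} ↔
          f (a 0) k = false := by
        intro k
        simp
      by_cases hin : a 0 ∈ rng ∧ a 1 ∈ rng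
      · have h5 := List.all_eq_true.1 (List.all_eq_true.1 h2 _ hin.1) _ hin.2
        rw [ha', Bool.false_or] at h5
        simp only [rayB2, Bool.or_eq_true, List.all_eq_true, decide_eq_true_eq,
          Bool.not_eq_true'] at h5
        rcases h5 with ((h5 | h5) | h5) | h5
        · refine ⟨0, 1, by simp, fun k => ?_⟩
          rw [up0]
          by_cases hk : k = 0
          · subst hk; simpa using ha'
          · by_cases hm : a 0 + 1 * (k : ℤ) ∈ rng
            · rcases h5 _ hm with h6 | h6
              · omega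
              · exact h6
            · exact hnot _ _ (fun hh => hm hh.1)
        · refine ⟨0, -1, by simp, fun k => ?_⟩
          rw [up0]
          by_cases hk : k = 0
          · subst hk; simpa using ha'
          · by_cases hm : a 0 + -1 * (k : ℤ) ∈ rng
            · rcases h5 _ hm with h6 | h6
              · omega
              · exact h6
            · exact hnot _ _ (fun hh => hm hh.1)
        · refine ⟨1, 1, by simp, fun k => ?_⟩
          rw [up1]
          by_cases hk : k = 0
          · subst hk; simpa using ha'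
          · by_cases hm : a 1 + 1 * (k : ℤ) ∈ rng
            · rcases h5 _ hm with h6 | h6
              · omega
              · exact h6
            · exact hnot _ _ (fun hh => hm hh.2)
        · refine ⟨1, -1, by simp, fun k => ?_⟩
          rw [up1]
          by_cases hk : k = 0
          · subst hk; simpa using ha'
          · by_cases hm : a 1 + -1 * (k : ℤ) ∈ rng
            · rcases h5 _ hm with h6 | h6
              · omega
              · exact h6
            · exact hnot _ _ (fun hh => hm hh.2)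
      · rw [mem_rng, mem_rng] at hin
        have hcase : a 0 < -2 ∨ 8 ≤ a 0 ∨ a 1 < -2 ∨ 8 ≤ a 1 := by omega
        rcases hcase with hc | hc | hc | hc
        · refine ⟨0, -1, by simp, fun k => ?_⟩
          rw [up0]
          exact hnot _ _ (by rw [mem_rng, mem_rng]; omega)
        · refine ⟨0, 1, by simp, fun k => ?_⟩
          rw [up0]
          exact hnot _ _ (by rw [mem_rng, mem_rng]; omega)
        · refine ⟨1, -1, by simp, fun k => ?_⟩
          rw [up1]
          exact hnot _ _ (by rw [mem_rng, mem_rng]; omega)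
        · refine ⟨1, 1, by simp, fun k => ?_⟩
          rw [up1]
          exact hnot _ _ (by rw [mem_rng, mem_rng]; omega)
  all_goals
    intro p
    have hloc : localB2 f (p 0) (p 1) = true := by
      by_cases hin : p 0 ∈ rngc ∧ p 1 ∈ rngc
      · exact List.all_eq_true.1 (List.all_eq_true.1 h3 _ hin.1) _ hin.2
      · have hall : ∀ o ∈ offs2, f (p 0 + o.1) (p 1 + o.2) = false := by
          intro o ho
          refine hnot _ _ ?_
          rw [mem_rngc, mem_rngc] at hin
          rw [mem_rng, mem_rng]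
          have ho' : (-1 ≤ o.1 ∧ o.1 ≤ 0) ∧ (-1 ≤ o.2 ∧ o.2 ≤ 0) := by
            revert o
            decide
          omega
        unfold localB2
        have e1 : (offs2.filter fun o => f (p 0 + o.1) (p 1 + o.2)) = [] := by
          rw [List.filter_eq_nil_iff]
          intro o ho
          rw [hall o ho]
          simp
        have e2 : (offs2.filter fun o => !f (p 0 + o.1) (p 1 + o.2)) = offs2 := by
          rw [List.filter_eq_self]
          intro o ho
          rw [hall o ho]
          simp
        rw [e1, e2]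
        decide
    simp only [localB2, Bool.and_eq_true] at hloc
    have hcor : ∀ x : Pt 2, Corner x p ↔
        ∃ o ∈ offs2, (![p 0 + o.1, p 1 + o.2] : Pt 2) = x := by
      intro x
      constructor
      · intro hx
        have hx0 := hx 0
        have hx1 := hx 1
        refine ⟨(x 0 - p 0, x 1 - p 1), ?_, ?_⟩
        · simp only [offs2, List.mem_cons, Prod.mk.injEq, List.not_mem_nil, or_false]
          omega
        · funext i
          fin_cases i <;> simp
      · rintro ⟨o, ho, rfl⟩ i
        have ho' : (o.1 = -1 ∨ o.1 = 0) ∧ (o.2 = -1 ∨ o.2 = 0) := by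
          revert o
          decide
        fin_cases i
        · show p 0 = p 0 + o.1 ∨ p 0 = p 0 + o.1 + 1
          omega
        · show p 1 = p 1 + o.2 ∨ p 1 = p 1 + o.2 + 1
          omega
  · refine conn_of_connB adj2 (fun o : ℤ × ℤ => (![p 0 + o.1, p 1 + o.2] : Pt 2))
      (fun a b hab => adj_of_adj2 p a b hab) _ hloc.1 _ ?_
    intro x
    constructor
    · rintro ⟨hx1, hx2⟩
      obtain ⟨o, ho, rfl⟩ := (hcor x).1 hx2
      exact ⟨o, List.mem_filter.2 ⟨ho, hx1⟩, rfl⟩
    · rintro ⟨o, ho, rfl⟩
      rw [List.mem_filter] at ho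
      exact ⟨ho.2, (hcor _).2 ⟨o, ho.1, rfl⟩⟩
  · refine conn_of_connB adj2 (fun o : ℤ × ℤ => (![p 0 + o.1, p 1 + o.2] : Pt 2))
      (fun a b hab => adj_of_adj2 p a b hab) _ hloc.2 _ ?_
    intro x
    constructor
    · rintro ⟨hx1, hx2⟩
      obtain ⟨o, ho, rfl⟩ := (hcor x).1 hx2
      exact ⟨o, List.mem_filter.2 ⟨ho, by simpa using hx1⟩, rfl⟩
    · rintro ⟨o, ho, rfl⟩
      rw [List.mem_filter] at ho
      exact ⟨by simpa using ho.2, (hcor _).2 ⟨o, ho.1, rfl⟩⟩

end Pool.Agent.Run7.h207.Ortho
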