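import Pool.Agent.Run7.h207.Ortho.Check2

/-! # A checker for solids in space -/

set_option autoImplicit false

namespace Pool.Agent.Run7.h207.Ortho

open Relation

def adj3 (a b : ℤ × ℤ × ℤ) : Bool :=
  (a.1 - b.1).natAbs + (a.2.1 - b.2.1).natAbs + (a.2.2 - b.2.2).natAbs == 1

/-- offsets of the cells at a corner -/
def offs3 : List (ℤ × ℤ × ℤ) := [(-1, -1, -1), (-1, -1, 0), (-1, 0, -1), (-1, 0, 0),
  (0, -1, -1), (0, -1, 0), (0, 0, -1), (0, 0, 0)]

def rayB3 (f : ℤ → ℤ → ℤ → Bool) (x y z : ℤ) : Bool :=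
  (rng.all fun x' => decide (x' ≤ x) || !f x' y z) ||
  (rng.all fun x' => decide (x ≤ x') || !f x' y z) ||
  (rng.all fun y' => decide (y' ≤ y) || !f x y' z) ||
  (rng.all fun y' => decide (y ≤ y') || !f x y' z) ||
  (rng.all fun z' => decide (z' ≤ z) || !f x y z') ||
  (rng.all fun z' => decide (z ≤ z') || !f x y z')

def localB3 (f : ℤ → ℤ → ℤ → Bool) (x y z : ℤ) : Bool :=
  connB adj3 (offs3.filter fun o => f (x + o.1) (y + o.2.1) (z + o.2.2)) &&
  connB adj3 (offs3.filter fun o => !f (x + o.1) (y + o.2.1) (z + o.2.2))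

def cells3 (f : ℤ → ℤ → ℤ → Bool) : List (ℤ × ℤ × ℤ) :=
  (rng.product (rng.product rng)).filter fun a => f a.1 a.2.1 a.2.2

def solid3B (f : ℤ → ℤ → ℤ → Bool) : Bool :=
  !(cells3 f).isEmpty && connB adj3 (cells3 f) &&
  (rng.all fun x => rng.all fun y => rng.all fun z => f x y z || rayB3 f x y z) &&
  (rngc.all fun x => rngc.all fun y => rngc.all fun z => localB3 f x y z)

theorem adj_of_adj3 (p : Pt 3) (a b : ℤ × ℤ × ℤ) (h : adj3 a b = true) :
    Adj (![p 0 + a.1, p 1 + a.2.1, p 2 + a.2.2] : Pt 3)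
      ![p 0 + b.1, p 1 + b.2.1, p 2 + b.2.2] := by
  unfold adj3 at h
  unfold Adj
  rw [Fin.sum_univ_three]
  have h1 : (a.1 - b.1).natAbs + (a.2.1 - b.2.1).natAbs + (a.2.2 - b.2.2).natAbs = 1 := by
    simpa using h
  show |p 0 + a.1 - (p 0 + b.1)| + |p 1 + a.2.1 - (p 1 + b.2.1)| +
    |p 2 + a.2.2 - (p 2 + b.2.2)| = 1
  have h2 : p 0 + a.1 - (p 0 + b.1) = a.1 - b.1 := by ring
  have h3 : p 1 + a.2.1 - (p 1 + b.2.1) = a.2.1 - b.2.1 := by ring
  have h4 : p 2 + a.2.2 - (p 2 + b.2.2) = a.2.2 - b.2.2 := by ring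
  rw [h2, h3, h4, ← Int.natCast_natAbs, ← Int.natCast_natAbs, ← Int.natCast_natAbs]
  exact_mod_cast h1

theorem eta3 (a : Pt 3) : (![a 0, a 1, a 2] : Pt 3) = a := by
  funext i
  fin_cases i <;> rfl

theorem solid_of_check3 (f : ℤ → ℤ → ℤ → Bool)
    (hf : ∀ x y z, f x y z = true → x ∈ rng ∧ y ∈ rng ∧ z ∈ rng)
    (h : solid3B f = true) : Solid {a : Pt 3 | f (a 0) (a 1) (a 2) = true} := by
  simp only [solid3B, Bool.and_eq_true] at h
  obtain ⟨⟨⟨h0, h1⟩, h2⟩, h3⟩ := h
  have hmem : ∀ x : Pt 3, x ∈ {a : Pt 3 | f (a 0) (a 1) (a 2) = true} ↔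
      ∃ a ∈ cells3 f, (fun a : ℤ × ℤ × ℤ => (![a.1, a.2.1, a.2.2] : Pt 3)) a = x := by
    intro x
    constructor
    · intro hx
      refine ⟨(x 0, x 1, x 2), ?_, eta3 x⟩
      rw [cells3, List.mem_filter]
      refine ⟨?_, hx⟩
      rw [List.pair_mem_product, List.pair_mem_product]
      exact hf _ _ _ hx
    · rintro ⟨a, ha, rfl⟩
      rw [cells3, List.mem_filter] at ha
      exact ha.2
  have hnot : ∀ x y z, ¬ (x ∈ rng ∧ y ∈ rng ∧ z ∈ rng) → f x y z = false := by
    intro x y z hxy
    by_contra hne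
    exact hxy (hf x y z (by simpa using hne))
  refine ⟨?_, ?_, ?_, ?_, ?_, ?_⟩
  · refine Set.Finite.subset ((List.finite_toSet (cells3 f)).image
      (fun a : ℤ × ℤ × ℤ => (![a.1, a.2.1, a.2.2] : Pt 3))) ?_
    intro x hx
    obtain ⟨a, ha, h⟩ := (hmem x).1 hx
    exact ⟨a, ha, h⟩
  · cases hc : cells3 f with
    | nil => rw [hc] at h0; simp at h0
    | cons a t =>
      exact ⟨_, (hmem _).2 ⟨a, by rw [hc]; exact List.mem_cons_self, rfl⟩⟩
  · refine conn_of_connB adj3 (fun a : ℤ × ℤ × ℤ => (![a.1, a.2.1, a.2.2] : Pt 3)) ?_ _ h1 _ hmem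
    intro a b hab
    simpa using adj_of_adj3 0 a b hab
  · refine conn_compl_of_rays (by norm_num) _ 8 ?_ ?_
    · intro a ha i
      have h4 := hf _ _ _ ha
      rw [mem_rng, mem_rng, mem_rng] at h4
      rw [abs_le]
      fin_cases i
      · exact ⟨by simp only [Fin.zero_eta]; omega, by simp only [Fin.zero_eta]; omega⟩
      · exact ⟨by simp only [Fin.mk_one]; omega, by simp only [Fin.mk_one]; omega⟩
      · exact ⟨by simp only [Fin.reduceFinMk]; omega, by simp only [Fin.reduceFinMk]; omega⟩
    · intro a ha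
      have ha' : f (a 0) (a 1) (a 2) = false := by simpa using ha
      have up0 : ∀ k : ℤ, (Function.update a 0 k : Pt 3) ∉
          {a : Pt 3 | f (a 0) (a 1) (a 2) = true} ↔ f k (a 1) (a 2) = false := by
        intro k
        simp
      have up1 : ∀ k : ℤ, (Function.update a 1 k : Pt 3) ∉
          {a : Pt 3 | f (a 0) (a 1) (a 2) = true} ↔ f (a 0) k (a 2) = false := by
        intro k
        simp
      have up2 : ∀ k : ℤ, (Function.update a 2 k : Pt 3) ∉
          {a : Pt 3 | f (a 0) (a 1) (a 2) = true} ↔ f (a 0) (a 1) k = false := by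
        intro k
        simp
      by_cases hin : a 0 ∈ rng ∧ a 1 ∈ rng ∧ a 2 ∈ rng
      · have h5 := List.all_eq_true.1 (List.all_eq_true.1 (List.all_eq_true.1 h2 _ hin.1) _
          hin.2.1) _ hin.2.2
        rw [ha', Bool.false_or] at h5
        simp only [rayB3, Bool.or_eq_true, List.all_eq_true, decide_eq_true_eq,
          Bool.not_eq_true'] at h5
        rcases h5 with ((((h5 | h5) | h5) | h5) | h5) | h5
        · refine ⟨0, 1, by simp, fun k => ?_⟩
          rw [up0]
          by_cases hk : k = 0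
          · subst hk; simpa using ha'
          · by_cases hm : a 0 + 1 * (k : ℤ) ∈ rng
            · rcases h5 _ hm with h6 | h6
              · omega
              · exact h6
            · exact hnot _ _ _ (fun hh => hm hh.1)
        · refine ⟨0, -1, by simp, fun k => ?_⟩
          rw [up0]
          by_cases hk : k = 0
          · subst hk; simpa using ha'
          · by_cases hm : a 0 + -1 * (k : ℤ) ∈ rng
            · rcases h5 _ hm with h6 | h6
              · omega
              · exact h6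
            · exact hnot _ _ _ (fun hh => hm hh.1)
        · refine ⟨1, 1, by simp, fun k => ?_⟩
          rw [up1]
          by_cases hk : k = 0
          · subst hk; simpa using ha'
          · by_cases hm : a 1 + 1 * (k : ℤ) ∈ rng
            · rcases h5 _ hm with h6 | h6
              · omega
              · exact h6
            · exact hnot _ _ _ (fun hh => hm hh.2.1)
        · refine ⟨1, -1, by simp, fun k => ?_⟩
          rw [up1]
          by_cases hk : k = 0
          · subst hk; simpa using ha'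
          · by_cases hm : a 1 + -1 * (k : ℤ) ∈ rng
            · rcases h5 _ hm with h6 | h6
              · omega
              · exact h6
            · exact hnot _ _ _ (fun hh => hm hh.2.1)
        · refine ⟨2, 1, by simp, fun k => ?_⟩
          rw [up2]
          by_cases hk : k = 0
          · subst hk; simpa using ha'
          · by_cases hm : a 2 + 1 * (k : ℤ) ∈ rng
            · rcases h5 _ hm with h6 | h6
              · omega
              · exact h6
            · exact hnot _ _ _ (fun hh => hm hh.2.2)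
        · refine ⟨2, -1, by simp, fun k => ?_⟩
          rw [up2]
          by_cases hk : k = 0
          · subst hk; simpa using ha'
          · by_cases hm : a 2 + -1 * (k : ℤ) ∈ rng
            · rcases h5 _ hm with h6 | h6
              · omega
              · exact h6
            · exact hnot _ _ _ (fun hh => hm hh.2.2)
      · rw [mem_rng, mem_rng, mem_rng] at hin
        have hcase : a 0 < -2 ∨ 8 ≤ a 0 ∨ a 1 < -2 ∨ 8 ≤ a 1 ∨ a 2 < -2 ∨ 8 ≤ a 2 := by omega
        rcases hcase with hc | hc | hc | hc | hc | hc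
        · refine ⟨0, -1, by simp, fun k => ?_⟩
          rw [up0]
          exact hnot _ _ _ (by rw [mem_rng, mem_rng, mem_rng]; omega)
        · refine ⟨0, 1, by simp, fun k => ?_⟩
          rw [up0]
          exact hnot _ _ _ (by rw [mem_rng, mem_rng, mem_rng]; omega)
        · refine ⟨1, -1, by simp, fun k => ?_⟩
          rw [up1]
          exact hnot _ _ _ (by rw [mem_rng, mem_rng, mem_rng]; omega)
        · refine ⟨1, 1, by simp, fun k => ?_⟩
          rw [up1]
          exact hnot _ _ _ (by rw [mem_rng, mem_rng, mem_rng]; omega)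
        · refine ⟨2, -1, by simp, fun k => ?_⟩
          rw [up2]
          exact hnot _ _ _ (by rw [mem_rng, mem_rng, mem_rng]; omega)
        · refine ⟨2, 1, by simp, fun k => ?_⟩
          rw [up2]
          exact hnot _ _ _ (by rw [mem_rng, mem_rng, mem_rng]; omega)
  all_goals
    intro p
    have hloc : localB3 f (p 0) (p 1) (p 2) = true := by
      by_cases hin : p 0 ∈ rngc ∧ p 1 ∈ rngc ∧ p 2 ∈ rngc
      · exact List.all_eq_true.1 (List.all_eq_true.1 (List.all_eq_true.1 h3 _ hin.1) _
          hin.2.1) _ hin.2.2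
      · have hall : ∀ o ∈ offs3, f (p 0 + o.1) (p 1 + o.2.1) (p 2 + o.2.2) = false := by
          intro o ho
          refine hnot _ _ _ ?_
          rw [mem_rngc, mem_rngc, mem_rngc] at hin
          rw [mem_rng, mem_rng, mem_rng]
          have ho' : (-1 ≤ o.1 ∧ o.1 ≤ 0) ∧ (-1 ≤ o.2.1 ∧ o.2.1 ≤ 0) ∧
              (-1 ≤ o.2.2 ∧ o.2.2 ≤ 0) := by
            revert o
            decide
          omega
        unfold localB3
        have e1 : (offs3.filter fun o => f (p 0 + o.1) (p 1 + o.2.1) (p 2 + o.2.2)) = [] := by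
          rw [List.filter_eq_nil_iff]
          intro o ho
          rw [hall o ho]
          simp
        have e2 : (offs3.filter fun o => !f (p 0 + o.1) (p 1 + o.2.1) (p 2 + o.2.2)) = offs3 := by
          rw [List.filter_eq_self]
          intro o ho
          rw [hall o ho]
          simp
        rw [e1, e2]
        decide
    simp only [localB3, Bool.and_eq_true] at hloc
    have hcor : ∀ x : Pt 3, Corner x p ↔
        ∃ o ∈ offs3, (![p 0 + o.1, p 1 + o.2.1, p 2 + o.2.2] : Pt 3) = x := by
      intro x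
      constructor
      · intro hx
        have hx0 := hx 0
        have hx1 := hx 1
        have hx2 := hx 2
        refine ⟨(x 0 - p 0, x 1 - p 1, x 2 - p 2), ?_, ?_⟩
        · have e : ∀ i, (p i = x i ∨ p i = x i + 1) → (x i - p i = -1 ∨ x i - p i = 0) := by
            intro i hi
            omega
          rcases e 0 hx0 with h | h <;> rcases e 1 hx1 with h' | h' <;>
            rcases e 2 hx2 with h'' | h'' <;> rw [h, h', h''] <;> decide
        · funext i
          fin_cases i <;> simp
      · rintro ⟨o, ho, rfl⟩ i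
        have ho' : (o.1 = -1 ∨ o.1 = 0) ∧ (o.2.1 = -1 ∨ o.2.1 = 0) ∧
            (o.2.2 = -1 ∨ o.2.2 = 0) := by
          revert o
          decide
        fin_cases i
        · show p 0 = p 0 + o.1 ∨ p 0 = p 0 + o.1 + 1
          omega
        · show p 1 = p 1 + o.2.1 ∨ p 1 = p 1 + o.2.1 + 1
          omega
        · show p 2 = p 2 + o.2.2 ∨ p 2 = p 2 + o.2.2 + 1
          omega
  · refine conn_of_connB adj3 (fun o : ℤ × ℤ × ℤ =>
      (![p 0 + o.1, p 1 + o.2.1, p 2 + o.2.2] : Pt 3))
      (fun a b hab => adj_of_adj3 p a b hab) _ hloc.1 _ ?_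
    intro x
    constructor
    · rintro ⟨hx1, hx2⟩
      obtain ⟨o, ho, rfl⟩ := (hcor x).1 hx2
      exact ⟨o, List.mem_filter.2 ⟨ho, hx1⟩, rfl⟩
    · rintro ⟨o, ho, rfl⟩
      rw [List.mem_filter] at ho
      exact ⟨ho.2, (hcor _).2 ⟨o, ho.1, rfl⟩⟩
  · refine conn_of_connB adj3 (fun o : ℤ × ℤ × ℤ =>
      (![p 0 + o.1, p 1 + o.2.1, p 2 + o.2.2] : Pt 3))
      (fun a b hab => adj_of_adj3 p a b hab) _ hloc.2 _ ?_
    intro x
    constructor
    · rintro ⟨hx1, hx2⟩
      obtain ⟨o, ho, rfl⟩ := (hcor x).1 hx2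
      exact ⟨o, List.mem_filter.2 ⟨ho, by simpa using hx1⟩, rfl⟩
    · rintro ⟨o, ho, rfl⟩
      rw [List.mem_filter] at ho
      exact ⟨by simpa using ho.2, (hcor _).2 ⟨o, ho.1, rfl⟩⟩

end Pool.Agent.Run7.h207.Ortho
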