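import Pool.Agent.Run7.h207.Ortho.Defs

/-! # Connectivity of sets of lattice cubes -/

set_option autoImplicit false

namespace Pool.Agent.Run7.h207.Ortho

open Relation

theorem Adj.symm {n : ℕ} {a b : Pt n} (h : Adj a b) : Adj b a := by
  unfold Adj at *
  rw [← h]
  exact Finset.sum_congr rfl fun i _ => abs_sub_comm _ _

/-- steps inside `Q` -/
def Step {n : ℕ} (Q : Set (Pt n)) (u v : Pt n) : Prop := Adj u v ∧ v ∈ Q

theorem step_symm {n : ℕ} {Q : Set (Pt n)} {a b : Pt n} (ha : a ∈ Q)
    (h : ReflTransGen (Step Q) a b) : b ∈ Q ∧ ReflTransGen (Step Q) b a := by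
  induction h with
  | refl => exact ⟨ha, ReflTransGen.refl⟩
  | tail _ h2 ih =>
    refine ⟨h2.2, ?_⟩
    exact ReflTransGen.head ⟨h2.1.symm, ih.1⟩ ih.2

theorem conn_of_root {n : ℕ} {Q : Set (Pt n)} (z : Pt n) (hz : z ∈ Q)
    (h : ∀ a ∈ Q, ReflTransGen (Step Q) z a) : Conn Q := by
  intro a ha b hb
  exact ((step_symm hz (h a ha)).2).trans (h b hb)

theorem adj_update {n : ℕ} (c : Pt n) (j : Fin n) (v : ℤ) (h : |c j - v| = 1) :
    Adj c (Function.update c j v) := by
  unfold Adj
  rw [Finset.sum_eq_single j]
  · simpa using h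
  · intro i _ hij
    rw [Function.update_of_ne hij]
    simp
  · simp

theorem same_coord {n : ℕ} {Q : Set (Pt n)} (i : Fin n) (v : ℤ) (hQ : ∀ x : Pt n, x i = v → x ∈ Q)
    (N : ℕ) : ∀ (c c' : Pt n), c i = v → c' i = v → ∑ j, (c j - c' j).natAbs ≤ N →
      ReflTransGen (Step Q) c c' := by
  induction N with
  | zero =>
    intro c c' _ _ h
    have : c = c' := by
      funext j
      have h1 : (c j - c' j).natAbs ≤ ∑ j, (c j - c' j).natAbs :=
        Finset.single_le_sum (f := fun j => (c j - c' j).natAbs) (fun _ _ => Nat.zero_le _)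
          (Finset.mem_univ j)
      omega
    rw [this]
  | succ N ih =>
    intro c c' hc hc' h
    by_cases hcc : c = c'
    · rw [hcc]
    · obtain ⟨j, hj⟩ : ∃ j, c j ≠ c' j := by
        by_contra hne
        push Not at hne
        exact hcc (funext hne)
      have hji : j ≠ i := by
        rintro rfl
        exact hj (by rw [hc, hc'])
      obtain ⟨v', hv1, hv2⟩ : ∃ v' : ℤ, |c j - v'| = 1 ∧
          (v' - c' j).natAbs + 1 = (c j - c' j).natAbs := by
        rcases lt_or_gt_of_ne hj with hlt | hlt
        · refine ⟨c j + 1, by simp, by omega⟩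
        · refine ⟨c j - 1, by simp, by omega⟩
      have h1 : (Function.update c j v') i = v := by
        rw [Function.update_of_ne hji.symm, hc]
      refine ReflTransGen.head ⟨adj_update c j v' hv1, hQ _ h1⟩ (ih _ _ h1 hc' ?_)
      have h2 : ∑ k, (Function.update c j v' k - c' k).natAbs + 1 = ∑ k, (c k - c' k).natAbs := by
        rw [← Finset.add_sum_erase _ _ (Finset.mem_univ j),
          ← Finset.add_sum_erase (Finset.univ) (fun k => (c k - c' k).natAbs) (Finset.mem_univ j)]
        have h3 : ∑ k ∈ Finset.univ.erase j, (Function.update c j v' k - c' k).natAbs =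
            ∑ k ∈ Finset.univ.erase j, (c k - c' k).natAbs := by
          refine Finset.sum_congr rfl fun k hk => ?_
          rw [Function.update_of_ne (Finset.ne_of_mem_erase hk)]
        rw [h3, Function.update_self]
        omega
      omega

theorem conn_compl_of_rays {n : ℕ} (hn : 2 ≤ n) (P : Set (Pt n)) (M : ℤ)
    (hM : ∀ a ∈ P, ∀ i, |a i| ≤ M)
    (hr : ∀ a, a ∉ P → ∃ (i : Fin n) (σ : ℤ), |σ| = 1 ∧
      ∀ k : ℕ, Function.update a i (a i + σ * k) ∉ P) : Conn Pᶜ := by
  -- the far corner
  have far : ∀ (i : Fin n) (x : Pt n), M < |x i| → x ∈ Pᶜ := by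
    intro i x hx hxP
    exact absurd (hM x hxP i) (not_le.2 hx)
  have hne : ∀ i : Fin n, ∃ j : Fin n, j ≠ i := by
    intro i
    have : Nontrivial (Fin n) := Fin.nontrivial_iff_two_le.2 hn
    exact exists_ne i
  have i0 : Fin n := ⟨0, by omega⟩
  let z : Pt n := fun _ => |M| + 1
  have hMz : ∀ i, M < |z i| := by
    intro i
    have h1 : M ≤ |M| := le_abs_self M
    have h2 : |z i| = |M| + 1 := abs_of_nonneg (by positivity)
    omega
  have hz : z ∈ Pᶜ := far i0 z (hMz i0)
  -- from a far point to `z`
  have h1 : ∀ (i : Fin n) (x : Pt n), M < |x i| → ReflTransGen (Step Pᶜ) x z := by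
    intro i x hx
    let w : Pt n := Function.update z i (x i)
    have hw : w i = x i := by simp [w]
    obtain ⟨j, hj⟩ := hne i
    have hwj : w j = z j := by simp [w, Function.update_of_ne hj]
    refine (same_coord i (x i) (fun y hy => far i y (by rw [hy]; exact hx)) _ x w rfl hw
      le_rfl).trans ?_
    exact same_coord j (z j) (fun y hy => far j y (by rw [hy]; exact hMz j)) _ w z hwj rfl le_rfl
  refine conn_of_root z hz fun a ha => ?_
  have haz : ReflTransGen (Step Pᶜ) a z := by
    obtain ⟨i, σ, hσ, hray⟩ := hr a ha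
    have h2 : ∀ k : ℕ, ReflTransGen (Step Pᶜ) a (Function.update a i (a i + σ * k)) := by
      intro k
      induction k with
      | zero =>
        simp only [Nat.cast_zero, mul_zero, add_zero, Function.update_eq_self]
        exact ReflTransGen.refl
      | succ k ih =>
        refine ih.tail ⟨?_, hray (k + 1)⟩
        have h3 : Function.update a i (a i + σ * ((k + 1 : ℕ) : ℤ)) =
            Function.update (Function.update a i (a i + σ * k)) i
              (a i + σ * ((k + 1 : ℕ) : ℤ)) := by
          rw [Function.update_idem]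
        rw [h3]
        refine adj_update _ _ _ ?_
        rw [Function.update_self]
        have : a i + σ * (k : ℤ) - (a i + σ * ((k + 1 : ℕ) : ℤ)) = -σ := by
          push_cast
          ring
        rw [this, abs_neg, hσ]
    -- far enough along the ray
    let k : ℕ := (|a i| + |M| + 1).toNat
    have hk : (k : ℤ) = |a i| + |M| + 1 := Int.toNat_of_nonneg (by positivity)
    refine (h2 k).trans (h1 i _ ?_)
    rw [Function.update_self, hk]
    have h4 : |σ * (|a i| + |M| + 1)| = |a i| + |M| + 1 := by
      rw [abs_mul, hσ, one_mul]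
      exact abs_of_nonneg (by positivity)
    have h5 : |σ * (|a i| + |M| + 1)| - |a i| ≤ |a i + σ * (|a i| + |M| + 1)| := by
      have := abs_sub_abs_le_abs_sub (σ * (|a i| + |M| + 1)) (-(a i))
      rw [abs_neg, sub_neg_eq_add, add_comm (σ * (|a i| + |M| + 1)) (a i)] at this
      exact this
    have h6 : M ≤ |M| := le_abs_self M
    omega
  exact (step_symm ha haz).2

/-! ## A checker for connectivity of lists -/

section grow
variable {α : Type*}

/-- breadth first search: everything in `rest` is reached from `front` -/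
def grow (adj : α → α → Bool) : ℕ → List α → List α → Bool
  | 0, _, rest => rest.isEmpty
  | k + 1, front, rest =>
    bif rest.isEmpty then true else
      grow adj k (rest.filter fun a => front.any fun b => adj b a)
        (rest.filter fun a => !(front.any fun b => adj b a))

/-- connectivity of a list -/
def connB (adj : α → α → Bool) : List α → Bool
  | [] => true
  | a :: t => grow adj (t.length + 1) [a] t

theorem grow_sound (adj : α → α → Bool) (P : α → Prop) (r : α) (k : ℕ) :
    ∀ (front rest : List α),
      (∀ a ∈ front, ReflTransGen (fun u v => adj u v = true ∧ P v) r a) →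
      (∀ a ∈ rest, P a) → grow adj k front rest = true →
      ∀ a ∈ rest, ReflTransGen (fun u v => adj u v = true ∧ P v) r a := by
  induction k with
  | zero =>
    intro front rest _ _ h a ha
    simp [grow] at h
    rw [h] at ha
    simp at ha
  | succ k ih =>
    intro front rest h1 h2 h a ha
    unfold grow at h
    cases hre : rest.isEmpty with
    | true =>
      rw [List.isEmpty_iff] at hre
      rw [hre] at ha
      simp at ha
    | false =>
      rw [hre, cond_false] at h
      have key : ∀ a ∈ rest.filter (fun a => front.any fun b => adj b a),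
          ReflTransGen (fun u v => adj u v = true ∧ P v) r a := by
        intro a ha
        rw [List.mem_filter, List.any_eq_true] at ha
        obtain ⟨ha1, b, hb, hab⟩ := ha
        exact (h1 b hb).tail ⟨hab, h2 a ha1⟩
      by_cases hf : (front.any fun b => adj b a) = true
      · exact key a (List.mem_filter.2 ⟨ha, hf⟩)
      · refine ih _ _ key ?_ h a (List.mem_filter.2 ⟨ha, by simpa using hf⟩)
        intro b hb
        exact h2 b (List.mem_filter.1 hb).1

theorem connB_sound (adj : α → α → Bool) (l : List α) (h : connB adj l = true) :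
    l = [] ∨ ∃ r ∈ l, ∀ a ∈ l, ReflTransGen (fun u v => adj u v = true ∧ v ∈ l) r a := by
  cases l with
  | nil => exact Or.inl rfl
  | cons r t =>
    refine Or.inr ⟨r, List.mem_cons_self, ?_⟩
    intro a ha
    rcases List.mem_cons.1 ha with rfl | ha
    · exact ReflTransGen.refl
    · refine grow_sound adj (fun v => v ∈ r :: t) r (t.length + 1) [r] t ?_ ?_ h a ha
      · intro b hb
        rw [List.mem_singleton] at hb
        rw [hb]
      · intro b hb
        exact List.mem_cons_of_mem _ hb

end grow

/-- transfer to a set of lattice points -/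
theorem conn_of_connB {n : ℕ} {α : Type*} (adj : α → α → Bool) (f : α → Pt n)
    (hadj : ∀ a b, adj a b = true → Adj (f a) (f b)) (l : List α) (h : connB adj l = true)
    (Q : Set (Pt n)) (hQ : ∀ x, x ∈ Q ↔ ∃ a ∈ l, f a = x) : Conn Q := by
  rcases connB_sound adj l h with rfl | ⟨r, hr, hl⟩
  · intro a ha
    obtain ⟨b, hb, _⟩ := (hQ a).1 ha
    simp at hb
  · refine conn_of_root (f r) ((hQ _).2 ⟨r, hr, rfl⟩) ?_
    intro x hx
    obtain ⟨a, ha, rfl⟩ := (hQ x).1 hx
    have key : ∀ u v, (adj u v = true ∧ v ∈ l) → Step Q (f u) (f v) := by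
      rintro u v ⟨huv, hv⟩
      exact ⟨hadj u v huv, (hQ _).2 ⟨v, hv, rfl⟩⟩
    exact ReflTransGen.lift (p := Step Q) f key _ _ (hl a ha)

end Pool.Agent.Run7.h207.Ortho
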