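import Mathlib

/-!
# Orthostacks made of unit cubes, their faces, and edge unfoldings: definitions
-/

set_option autoImplicit false

namespace Pool.Agent.Run7.h207.Ortho

open Relation

/-- Points of the integer lattice; a point `c` is also used as the name of the unit cube
`∏ i, [c i, c i + 1]`. -/
abbrev Pt (n : ℕ) := Fin n → ℤ

/-- Lattice points at distance one; also: unit cubes with a common facet. -/
def Adj {n : ℕ} (a b : Pt n) : Prop := ∑ i, |a i - b i| = 1

/-- `p` is a corner of the unit cube `c`. -/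
def Corner {n : ℕ} (c p : Pt n) : Prop := ∀ i, p i = c i ∨ p i = c i + 1

/-- A set of unit cubes is connected through common facets. -/
def Conn {n : ℕ} (P : Set (Pt n)) : Prop :=
  ∀ a ∈ P, ∀ b ∈ P, ReflTransGen (fun u v => Adj u v ∧ v ∈ P) a b

/-- The union of the unit cubes in `P` is a solid whose boundary is one closed manifold: for
`n = 2` a simple polygon (without holes), for `n = 3` a polyhedral solid. -/
structure Solid {n : ℕ} (P : Set (Pt n)) : Prop where
  finite : P.Finite
  nonempty : P.Nonempty
  conn : Conn P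
  conn_compl : Conn Pᶜ
  local_inside : ∀ p, Conn {c | c ∈ P ∧ Corner c p}
  local_outside : ∀ p, Conn {c | c ∉ P ∧ Corner c p}

/-- The layer of `K` between the heights `k` and `k + 1`. -/
def layer (K : Set (Pt 3)) (k : ℤ) : Set (Pt 2) := {a | ![a 0, a 1, k] ∈ K}

/-- Orthostacks: solids all of whose horizontal slices (at heights strictly between `k` and
`k + 1`, and at height `k`) are empty or simple polygons without holes. -/
structure Orthostack (K : Set (Pt 3)) : Prop where
  solid : Solid K
  slice : ∀ k, layer K k = ∅ ∨ Solid (layer K k)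
  slice_int : ∀ k, layer K (k - 1) ∪ layer K k = ∅ ∨ Solid (layer K (k - 1) ∪ layer K k)

/-- The unit squares of the boundary: pairs of a cube inside and a cube outside with a common
facet. -/
def Bd (K : Set (Pt 3)) : Set (Pt 3 × Pt 3) := {s | s.1 ∈ K ∧ s.2 ∉ K ∧ Adj s.1 s.2}

/-- The outer normal. -/
def normal (s : Pt 3 × Pt 3) : Pt 3 := s.2 - s.1

/-- `p` is a corner of the unit square `s`. -/
def SqCorner (s : Pt 3 × Pt 3) (p : Pt 3) : Prop := Corner s.1 p ∧ Corner s.2 p

/-- The unit squares `s` and `t` have the unit segment from `p` to `q` as a common side. -/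
def Share (s t : Pt 3 × Pt 3) (p q : Pt 3) : Prop :=
  Adj p q ∧ SqCorner s p ∧ SqCorner s q ∧ SqCorner t p ∧ SqCorner t q

/-- Boundary squares with a common side in one plane. -/
def FlatAdj (K : Set (Pt 3)) (s t : Pt 3 × Pt 3) : Prop :=
  s ∈ Bd K ∧ t ∈ Bd K ∧ normal s = normal t ∧ ∃ p q, Share s t p q

/-- The face of the polyhedron which contains the boundary square `s`. -/
def face (K : Set (Pt 3)) (s : Pt 3 × Pt 3) : Set (Pt 3 × Pt 3) :=
  {t | ReflTransGen (FlatAdj K) s t}

/-- Every face is a simple polygon without holes (the face is projected to the coordinate plane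
parallel to it). -/
def SimpleFaces (K : Set (Pt 3)) : Prop :=
  ∀ s ∈ Bd K, ∀ i : Fin 3, s.1 i ≠ s.2 i →
    Solid ((fun (t : Pt 3 × Pt 3) (j : Fin 2) => t.1 (i.succAbove j)) '' face K s)

/-- The side `pq` of `s` and `t` is not cut: the squares are coplanar, or `pq` lies on an edge of
the polyhedron and is not in `cut`. -/
def Uncut (cut : Set (Sym2 (Pt 3))) (s t : Pt 3 × Pt 3) (p q : Pt 3) : Prop :=
  Share s t p q ∧ (normal s = normal t ∨ s(p, q) ∉ cut)

/-- An edge unfolding of the surface of `K`: the unit segments in `cut` which lie on edges of the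
polyhedron are cut; `φ s p` is the place in the plane of the corner `p` of the boundary
square `s`. -/
structure IsEdgeUnfolding (K : Set (Pt 3)) (cut : Set (Sym2 (Pt 3)))
    (φ : Pt 3 × Pt 3 → Pt 3 → ℂ) : Prop where
  /-- every square is placed isometrically -/
  isometric : ∀ s ∈ Bd K, ∀ p q, SqCorner s p → SqCorner s q →
    ‖φ s p - φ s q‖ ^ 2 = ∑ i, ((p i - q i : ℤ) : ℝ) ^ 2
  /-- squares which are not separated by a cut stay joined along their common side -/
  glued : ∀ s ∈ Bd K, ∀ t ∈ Bd K, ∀ p q, Uncut cut s t p q → φ s p = φ t p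
  /-- the cut surface is connected -/
  connected : ∀ s ∈ Bd K, ∀ t ∈ Bd K,
    ReflTransGen (fun a b => a ∈ Bd K ∧ b ∈ Bd K ∧ ∃ p q, Uncut cut a b p q) s t
  /-- no overlap -/
  disjoint : ∀ s ∈ Bd K, ∀ t ∈ Bd K, s ≠ t →
    Disjoint (interior (convexHull ℝ (φ s '' {p | SqCorner s p})))
      (interior (convexHull ℝ (φ t '' {p | SqCorner t p})))

/-- `K` has a nonoverlapping edge unfolding. -/
def HasEdgeUnfolding (K : Set (Pt 3)) : Prop :=
  ∃ (cut : Set (Sym2 (Pt 3))) (φ : Pt 3 × Pt 3 → Pt 3 → ℂ), IsEdgeUnfolding K cut φ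

end Pool.Agent.Run7.h207.Ortho
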