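import Pool.Agent.Run7.h207.Ortho.Check3

/-! # Directions, and which squares have a common side -/

set_option autoImplicit false

namespace Pool.Agent.Run7.h207.Ortho

open Relation

/-- the six directions -/
def dv : Fin 6 → ℤ × ℤ × ℤ
  | 0 => (1, 0, 0)
  | 1 => (-1, 0, 0)
  | 2 => (0, 1, 0)
  | 3 => (0, -1, 0)
  | 4 => (0, 0, 1)
  | 5 => (0, 0, -1)

/-- the axis of a direction -/
def ax : Fin 6 → Fin 3
  | 0 => 0
  | 1 => 0
  | 2 => 1
  | 3 => 1
  | 4 => 2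
  | 5 => 2

/-- the opposite direction -/
def opp : Fin 6 → Fin 6
  | 0 => 1
  | 1 => 0
  | 2 => 3
  | 3 => 2
  | 4 => 5
  | 5 => 4

def pt (a : ℤ × ℤ × ℤ) : Pt 3 := ![a.1, a.2.1, a.2.2]

def toT (c : Pt 3) : ℤ × ℤ × ℤ := (c 0, c 1, c 2)

theorem pt_toT (c : Pt 3) : pt (toT c) = c := eta3 c

theorem toT_pt (a : ℤ × ℤ × ℤ) : toT (pt a) = a := rfl

theorem toT_inj {c d : Pt 3} (h : toT c = toT d) : c = d := by
  rw [← pt_toT c, h, pt_toT]

theorem toT_add (c d : Pt 3) : toT (c + d) = toT c + toT d := rfl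
theorem toT_sub (c d : Pt 3) : toT (c - d) = toT c - toT d := rfl
theorem toT_neg (c : Pt 3) : toT (-c) = -toT c := rfl
theorem pt_add (a b : ℤ × ℤ × ℤ) : pt (a + b) = pt a + pt b := toT_inj rfl
theorem pt_sub (a b : ℤ × ℤ × ℤ) : pt (a - b) = pt a - pt b := toT_inj rfl
theorem pt_neg (a : ℤ × ℤ × ℤ) : pt (-a) = -pt a := toT_inj rfl

def dvec (i : Fin 6) : Pt 3 := pt (dv i)

theorem dvec_opp (i : Fin 6) : dvec (opp i) = -dvec i := by
  apply toT_inj
  show dv (opp i) = - dv i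
  revert i
  decide

theorem exists_dir {a b : Pt 3} (h : Adj a b) : ∃ i, b = a + dvec i := by
  unfold Adj at h
  rw [Fin.sum_univ_three] at h
  have h0 := abs_nonneg (a 0 - b 0)
  have h1 := abs_nonneg (a 1 - b 1)
  have h2 := abs_nonneg (a 2 - b 2)
  have hz : ∀ x y : ℤ, |x - y| = 0 → y = x + 0 := fun x y hxy => by
    rw [abs_eq_zero] at hxy; omega
  have ho : ∀ x y : ℤ, |x - y| = 1 → (y = x + 1 ∨ y = x + -1) := fun x y hxy => by
    rcases (abs_eq (by norm_num : (0 : ℤ) ≤ 1)).1 hxy with h | h <;> omega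
  by_cases c0 : |a 0 - b 0| = 0
  · by_cases c1 : |a 1 - b 1| = 0
    · have c3 : |a 2 - b 2| = 1 := by omega
      rcases ho _ _ c3 with c2 | c2
      · exact ⟨4, toT_inj (Prod.ext (hz _ _ c0) (Prod.ext (hz _ _ c1) c2))⟩
      · exact ⟨5, toT_inj (Prod.ext (hz _ _ c0) (Prod.ext (hz _ _ c1) c2))⟩
    · have c3 : |a 1 - b 1| = 1 := by omega
      have c4 : |a 2 - b 2| = 0 := by omega
      rcases ho _ _ c3 with c2 | c2
      · exact ⟨2, toT_inj (Prod.ext (hz _ _ c0) (Prod.ext c2 (hz _ _ c4)))⟩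
      · exact ⟨3, toT_inj (Prod.ext (hz _ _ c0) (Prod.ext c2 (hz _ _ c4)))⟩
  · have c3 : |a 0 - b 0| = 1 := by omega
    have c4 : |a 1 - b 1| = 0 := by omega
    have c5 : |a 2 - b 2| = 0 := by omega
    rcases ho _ _ c3 with c2 | c2
    · exact ⟨0, toT_inj (Prod.ext c2 (Prod.ext (hz _ _ c4) (hz _ _ c5)))⟩
    · exact ⟨1, toT_inj (Prod.ext c2 (Prod.ext (hz _ _ c4) (hz _ _ c5)))⟩

theorem adj_dvec (a : Pt 3) (i : Fin 6) : Adj a (a + dvec i) := by
  unfold Adj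
  rw [Fin.sum_univ_three]
  show |a 0 - (a 0 + (dv i).1)| + |a 1 - (a 1 + (dv i).2.1)| + |a 2 - (a 2 + (dv i).2.2)| = 1
  have e0 : a 0 - (a 0 + (dv i).1) = -(dv i).1 := by ring
  have e1 : a 1 - (a 1 + (dv i).2.1) = -(dv i).2.1 := by ring
  have e2 : a 2 - (a 2 + (dv i).2.2) = -(dv i).2.2 := by ring
  rw [e0, e1, e2]
  clear e0 e1 e2 a
  revert i
  decide

def cornerT (c p : ℤ × ℤ × ℤ) : Bool :=
  (p.1 == c.1 || p.1 == c.1 + 1) && (p.2.1 == c.2.1 || p.2.1 == c.2.1 + 1) &&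
    (p.2.2 == c.2.2 || p.2.2 == c.2.2 + 1)

theorem cornerT_iff (c p : Pt 3) : cornerT (toT c) (toT p) = true ↔ Corner c p := by
  simp only [cornerT, toT, Bool.and_eq_true, Bool.or_eq_true, beq_iff_eq, Corner, Fin.forall_fin_succ,
    Fin.isValue, IsEmpty.forall_iff, and_true]
  constructor
  · rintro ⟨⟨h0, h1⟩, h2⟩
    exact ⟨h0, h1, h2⟩
  · rintro ⟨h0, h1, h2⟩
    exact ⟨⟨h0, h1⟩, h2⟩

theorem cornerT_sub (c p q : ℤ × ℤ × ℤ) : cornerT (c - q) (p - q) = cornerT c p := by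
  have e : ∀ x y z : ℤ, (x - z == y - z) = (x == y) := by
    intro x y z
    rw [Bool.eq_iff_iff, beq_iff_eq, beq_iff_eq]
    omega
  have e' : ∀ x y z : ℤ, (x - z == y - z + 1) = (x == y + 1) := by
    intro x y z
    rw [Bool.eq_iff_iff, beq_iff_eq, beq_iff_eq]
    omega
  simp only [cornerT, Prod.fst_sub, Prod.snd_sub, e, e']

theorem mem_offs3 (c : ℤ × ℤ × ℤ) (h : cornerT c 0 = true) : c ∈ offs3 := by
  obtain ⟨x, y, z⟩ := c
  simp only [cornerT, Bool.and_eq_true, Bool.or_eq_true, beq_iff_eq, Prod.fst_zero,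
    Prod.snd_zero] at h
  obtain ⟨⟨h0, h1⟩, h2⟩ := h
  have f : ∀ x : ℤ, (0 = x ∨ 0 = x + 1) → x = -1 ∨ x = 0 := fun x h => by omega
  rcases f _ h0 with rfl | rfl <;> rcases f _ h1 with rfl | rfl <;> rcases f _ h2 with rfl | rfl <;>
    decide

/-- common side, for squares at the corner `0` -/
def shareT (c : ℤ × ℤ × ℤ) (i : Fin 6) (c' : ℤ × ℤ × ℤ) (i' k : Fin 6) : Bool :=
  cornerT (c + dv i) 0 && cornerT c (dv k) && cornerT (c + dv i) (dv k) &&
    (cornerT (c' + dv i') 0 && cornerT c' (dv k) && cornerT (c' + dv i') (dv k))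

def conclT (c : ℤ × ℤ × ℤ) (i : Fin 6) (c' : ℤ × ℤ × ℤ) (i' k j : Fin 6) : Bool :=
  decide (ax j ≠ ax i) && decide (ax k ≠ ax i) && decide (ax k ≠ ax j) &&
  decide (c + (c + dv i) + (1, 1, 1) - dv k = -dv j) &&
  ((decide (c' = c + dv j) && decide (i' = i) &&
      decide (c' + (c' + dv i') + (1, 1, 1) - dv k = dv j)) ||
    (decide (c' = c) && decide (i' = j) &&
      decide (c' + (c' + dv i') + (1, 1, 1) - dv k = -dv i)) ||
    (decide (c' = c + dv i + dv j) && decide (i' = opp j) &&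
      decide (c' + (c' + dv i') + (1, 1, 1) - dv k = dv i)) ||
    (decide (c' = c + dv i + dv j) && decide (i' = opp i)) ||
    (decide (c' = c + dv j) && decide (i' = opp j)) ||
    (decide (c' = c + dv i) && decide (i' = j)))

set_option maxRecDepth 100000 in
theorem shareT_cases : ∀ c ∈ offs3, ∀ c' ∈ offs3, ∀ i i' k : Fin 6,
    shareT c i c' i' k = true → (c' = c ∧ i' = i) ∨ (c' = c + dv i) ∧ i' = opp i ∨
      ∃ j, conclT c i c' i' k j = true := by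
  decide +kernel

end Pool.Agent.Run7.h207.Ortho
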