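import Pool.Agent.Run7.h207.Ortho.Label

/-! # The faces are simple polygons, the slices too -/

set_option autoImplicit false

namespace Pool.Agent.Run7.h207.Ortho

open Relation

theorem opp_opp (i : Fin 6) : dv (opp i) = -dv i := by
  revert i; decide

/-- the label of a square -/
def labT (c : T3) (i : Fin 6) : Lab := (part c, i)

theorem isSq_iff {c : T3} {L : Lab} : isSq c L = true ↔ sq c L.2 ∈ Bd KK ∧ part c = L.1 := by
  rw [sq_mem_KK, isSq]
  simp only [Bool.and_eq_true, Bool.not_eq_true', decide_eq_true_eq]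

/-- the third direction -/
def thd : Fin 6 → Fin 6 → Fin 6 := fun i j =>
  if ax i ≠ 0 ∧ ax j ≠ 0 then 0 else if ax i ≠ 1 ∧ ax j ≠ 1 then 2 else 4

def cor (i j : Fin 6) : T3 := (max (dv i).1 0, max (dv i).2.1 0, max (dv i).2.2 0) +
  (max (dv j).1 0, max (dv j).2.1 0, max (dv j).2.2 0)

theorem cor_check : ∀ i j : Fin 6, ax j ≠ ax i →
    cornerT 0 (cor i j) = true ∧ cornerT (dv i) (cor i j) = true ∧
    cornerT 0 (cor i j + dv (thd i j)) = true ∧
    cornerT (dv i) (cor i j + dv (thd i j)) = true ∧
    cornerT (dv j) (cor i j) = true ∧ cornerT (dv j + dv i) (cor i j) = true ∧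
    cornerT (dv j) (cor i j + dv (thd i j)) = true ∧
    cornerT (dv j + dv i) (cor i j + dv (thd i j)) = true := by
  decide

theorem cornerT_add (c a p : T3) (h : cornerT a p = true) : Corner (pt (c + a)) (pt (c + p)) := by
  rw [← cornerT_iff, toT_pt, toT_pt, ← cornerT_sub _ _ c, add_sub_cancel_left,
    add_sub_cancel_left]
  exact h

theorem share_flat (c : T3) {i j : Fin 6} (h : ax j ≠ ax i) :
    Share (sq c i) (sq (c + dv j) i) (pt (c + cor i j)) (pt (c + (cor i j + dv (thd i j)))) := by
  obtain ⟨h1, h2, h3, h4, h5, h6, h7, h8⟩ := cor_check i j h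
  have a1 := cornerT_add c _ _ h1
  have a2 := cornerT_add c _ _ h2
  have a3 := cornerT_add c _ _ h3
  have a4 := cornerT_add c _ _ h4
  have a5 := cornerT_add c _ _ h5
  have a6 := cornerT_add c _ _ h6
  have a7 := cornerT_add c _ _ h7
  have a8 := cornerT_add c _ _ h8
  rw [add_zero] at a1 a3
  rw [← add_assoc] at a6 a8
  refine ⟨?_, ⟨a1, a2⟩, ⟨a3, a4⟩, ⟨a5, a6⟩, ⟨a7, a8⟩⟩
  rw [← add_assoc, pt_add (c + cor i j)]
  exact adj_dvec _ _

theorem flatAdj_of {c : T3} {i j : Fin 6} (h : ax j ≠ ax i) (h1 : sq c i ∈ Bd KK)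
    (h2 : sq (c + dv j) i ∈ Bd KK) : FlatAdj KK (sq c i) (sq (c + dv j) i) :=
  ⟨h1, h2, by rw [normal_sq, normal_sq], _, _, share_flat c h⟩

theorem adj3_dir {a b : T3} (h : adj3 a b = true) : ∃ i, b = a + dv i := by
  have h1 := adj_of_adj3 0 a b h
  have h2 : Adj (pt a) (pt b) := by
    convert h1 using 2 <;> simp [pt]
  obtain ⟨i, hi⟩ := exists_dir h2
  refine ⟨i, ?_⟩
  have := congrArg toT hi
  rw [toT_pt, toT_add, toT_pt] at this
  exact this

theorem ax_eq {i j : Fin 6} (h : ax j = ax i) : j = i ∨ j = opp i := by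
  revert i j; decide

/-- neighbours in the list of cells of a face are flatly adjacent -/
theorem flat_of_adj3 {a b : T3} {L : Lab} (h : adj3 a b = true) (ha : isSq a L = true)
    (hb : isSq b L = true) : FlatAdj KK (sq a L.2) (sq b L.2) := by
  obtain ⟨j, rfl⟩ := adj3_dir h
  have h1 := (isSq_iff.1 ha).1
  have h2 := (isSq_iff.1 hb).1
  by_cases hj : ax j = ax L.2
  · exfalso
    have h3 := sq_mem_KK.1 h1
    have h4 := sq_mem_KK.1 h2
    rcases ax_eq hj with rfl | hj
    · rw [h3.2] at h4
      exact absurd h4.1 (by simp)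
    · have : a + dv j + dv L.2 = a := by
        rw [hj, opp_opp]; abel
      rw [this, h3.1] at h4
      exact absurd h4.2 (by simp)
  · exact flatAdj_of hj h1 h2

/-- flatly adjacent squares have the same label -/
theorem flat_label {a b : T3} {i i' : Fin 6} (h : FlatAdj KK (sq a i) (sq b i')) :
    i' = i ∧ part b = part a := by
  obtain ⟨h1, h2, h3, p, q, hsh⟩ := h
  have hi : i' = i := by
    rw [normal_sq, normal_sq] at h3
    have := congrArg toT h3
    exact (dv_inj this).symm
  refine ⟨hi, ?_⟩
  subst hi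
  rw [sq_mem_KK] at h1 h2
  have hopp : ∀ i : Fin 6, i ≠ opp i := by decide
  rcases share_cases hsh with ⟨h, -⟩ | ⟨-, h⟩ | ⟨j, k, -, a1, a2, a3, -, h⟩
  · rw [h]
  · exact absurd h (hopp _)
  · rcases h with h | h | h | h | h | h
    · rw [h.1] at h2 ⊢
      have := nbr_check a (mem_cellsK h1.1) i' j
      unfold nbrB at this
      simp only [Bool.or_eq_true, Bool.and_eq_true, decide_eq_true_eq, Bool.not_eq_true'] at this
      rcases this with (h5 | h5) | ⟨⟨h5, -⟩, -⟩
      · rw [h1.2] at h5
        exact absurd h5 (by simp)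
      · exact absurd h5 a1
      · rcases h5 with h5 | h5
        · rw [h2.1, h2.2] at h5
          exact absurd h5 (by simp)
        · exact h5
    · exact absurd (congrArg ax h.2.1).symm a1
    · have := congrArg ax h.2.1
      have e : ∀ j, ax (opp j) = ax j := by decide
      rw [e] at this
      exact absurd this.symm a1
    · exact absurd h.2 (hopp _)
    · have := congrArg ax h.2
      have e : ∀ j, ax (opp j) = ax j := by decide
      rw [e] at this
      exact absurd this.symm a1
    · exact absurd (congrArg ax h.2).symm a1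

/-- a relation which is kept along flat adjacencies inside a class -/
theorem class_conn (L : Lab) {a b : T3} (ha : isSq a L = true) (hb : isSq b L = true) :
    ReflTransGen (FlatAdj KK) (sq a L.2) (sq b L.2) := by
  have key : ∀ c, isSq c L = true → c ∈ cellsK.filter fun c => isSq c L := by
    intro c hc
    refine List.mem_filter.2 ⟨mem_cellsK ?_, hc⟩
    exact (sq_mem_KK.1 (isSq_iff.1 hc).1).1
  rcases connB_sound adj3 _ (class_check L) with h | ⟨r, hr, hl⟩
  · exact absurd h (class_ne L)
  · have hr' : isSq r L = true := (List.mem_filter.1 hr).2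
    have h1 : ∀ c, isSq c L = true → ReflTransGen (FlatAdj KK) (sq r L.2) (sq c L.2) := by
      intro c hc
      have h2 := hl c (key c hc)
      have h3 : isSq c L = true ∧ ReflTransGen (FlatAdj KK) (sq r L.2) (sq c L.2) := by
        clear hc
        induction h2 with
        | refl => exact ⟨hr', ReflTransGen.refl⟩
        | tail h4 h5 ih =>
          have ih := ih
          have h6 := (List.mem_filter.1 h5.2).2
          exact ⟨h6, ih.2.tail (flat_of_adj3 h5.1 ih.1 h6)⟩
      exact h3.2
    have hsymm : ∀ s t, FlatAdj KK s t → FlatAdj KK t s := by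
      rintro s t ⟨h1, h2, h3, p, q, h4, h5, h6, h7, h8⟩
      exact ⟨h2, h1, h3.symm, p, q, h4, h7, h8, h5, h6⟩
    have hgen : ∀ s t, ReflTransGen (FlatAdj KK) s t → ReflTransGen (FlatAdj KK) t s := by
      intro s t hst
      induction hst with
      | refl => exact ReflTransGen.refl
      | tail _ h5 ih => exact ReflTransGen.head (hsymm _ _ h5) ih
    have h2 : ReflTransGen (FlatAdj KK) (sq a L.2) (sq r L.2) := hgen _ _ (h1 a ha)
    exact h2.trans (h1 b hb)

theorem face_eq {c : T3} {i : Fin 6} (hs : sq c i ∈ Bd KK) :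
    face KK (sq c i) = {t | ∃ c', t = sq c' i ∧ isSq c' (part c, i) = true} := by
  ext t
  constructor
  · intro h
    induction h with
    | refl => exact ⟨c, rfl, isSq_iff.2 ⟨hs, rfl⟩⟩
    | tail _ h2 ih =>
      obtain ⟨c', rfl, hc'⟩ := ih
      have h3 := h2
      obtain ⟨c'', i'', rfl⟩ := exists_sq h2.2.1
      obtain ⟨rfl, h4⟩ := flat_label h2
      refine ⟨c'', rfl, isSq_iff.2 ⟨h3.2.1, ?_⟩⟩
      rw [h4]
      exact (isSq_iff.1 hc').2
  · rintro ⟨c', rfl, hc'⟩
    exact class_conn (part c, i) (isSq_iff.2 ⟨hs, rfl⟩) hc'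

def ins (a : Fin 3) (v x y : ℤ) : T3 :=
  match a with
  | 0 => (v, x, y)
  | 1 => (x, v, y)
  | 2 => (x, y, v)

def faceF (L : Lab) (x y : ℤ) : Bool := isSq (ins (ax L.2) (lev L) x y) L

theorem faceF_rng (L : Lab) (x y : ℤ) (h : faceF L x y = true) : x ∈ rng ∧ y ∈ rng := by
  unfold faceF at h
  have h1 := (sq_mem_KK.1 (isSq_iff.1 h).1).1
  have h2 := inK_rng _ _ _ h1
  revert h2
  generalize ax L.2 = a
  intro h2
  fin_cases a
  · exact ⟨h2.2.1, h2.2.2⟩
  · exact ⟨h2.1, h2.2.2⟩
  · exact ⟨h2.1, h2.2.1⟩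

set_option maxRecDepth 100000 in
theorem face_check : ∀ L : Lab, solid2B (faceF L) = true := by
  decide +kernel

theorem coord_lev {c : T3} {L : Lab} (h : isSq c L = true) : coord (ax L.2) c = lev L := by
  obtain ⟨h1, h2⟩ := isSq_iff.1 h
  rw [sq_mem_KK] at h1
  have := off_check c (mem_cellsK h1.1) L.2
  unfold offB at this
  rw [h1.2, Bool.false_or, decide_eq_true_eq, h2] at this
  exact this

theorem ins_coord (c : T3) (a : Fin 3) :
    ins a (coord a c) (pt c (a.succAbove 0)) (pt c (a.succAbove 1)) = c := by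
  fin_cases a <;> rfl

theorem simpleFaces_KK : SimpleFaces KK := by
  intro s hs m hm
  obtain ⟨c, i, rfl⟩ := exists_sq hs
  have hmi : m = ax i := by
    have h1 : (pt (c + dv i)) m = (pt c) m + dvec i m := by rw [pt_add]; rfl
    have h2 : dvec i m ≠ 0 := by
      intro h0
      rw [h0, add_zero] at h1
      exact hm h1.symm
    revert h2
    clear h1 hm hs
    revert i m
    decide
  subst hmi
  rw [face_eq hs]
  have key : (fun (t : Pt 3 × Pt 3) (j : Fin 2) => t.1 ((ax i).succAbove j)) ''
      {t | ∃ c', t = sq c' i ∧ isSq c' (part c, i) = true} =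
      {a : Pt 2 | faceF (part c, i) (a 0) (a 1) = true} := by
    ext a
    constructor
    · rintro ⟨t, ⟨c', rfl, hc'⟩, rfl⟩
      show isSq (ins (ax i) (lev (part c, i)) (pt c' ((ax i).succAbove 0))
        (pt c' ((ax i).succAbove 1))) (part c, i) = true
      rw [← coord_lev hc', ins_coord]
      exact hc'
    · intro ha
      refine ⟨_, ⟨ins (ax i) (lev (part c, i)) (a 0) (a 1), rfl, ha⟩, ?_⟩
      clear ha hs
      show (fun j => pt (ins (ax i) (lev (part c, i)) (a 0) (a 1)) ((ax i).succAbove j)) = a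
      generalize lev (part c, i) = v
      generalize ax i = m
      funext j
      fin_cases m <;> fin_cases j <;> rfl
  rw [key]
  exact solid_of_check2 _ (faceF_rng _) (face_check _)

/-! ## Slices -/

set_option maxRecDepth 100000 in
theorem slice_check : ∀ k ∈ rng, solid2B (fun x y => inK x y k) = true := by
  decide +kernel

set_option maxRecDepth 100000 in
theorem slice_check' : ∀ k ∈ rngc, solid2B (fun x y => inK x y (k - 1) || inK x y k) = true := by
  decide +kernel

theorem layer_KK (k : ℤ) : layer KK k = {a : Pt 2 | inK (a 0) (a 1) k = true} := rfl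

theorem orthostack_KK : Orthostack KK where
  solid := solid_of_check3 inK inK_rng check3
  slice := by
    intro k
    by_cases hk : k ∈ rng
    · right
      exact solid_of_check2 (fun x y => inK x y k) (fun x y h => ⟨(inK_rng _ _ _ h).1,
        (inK_rng _ _ _ h).2.1⟩) (slice_check k hk)
    · left
      rw [layer_KK, Set.eq_empty_iff_forall_notMem]
      intro a ha
      exact hk (inK_rng _ _ _ ha).2.2
  slice_int := by
    intro k
    by_cases hk : k ∈ rngc
    · right
      have : layer KK (k - 1) ∪ layer KK k =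
          {a : Pt 2 | (inK (a 0) (a 1) (k - 1) || inK (a 0) (a 1) k) = true} := by
        ext a
        simp only [layer_KK, Set.mem_union, Set.mem_ofPred_eq, Bool.or_eq_true]
      rw [this]
      refine solid_of_check2 (fun x y => inK x y (k - 1) || inK x y k) (fun x y h => ?_)
        (slice_check' k hk)
      rw [Bool.or_eq_true] at h
      rcases h with h | h
      · exact ⟨(inK_rng _ _ _ h).1, (inK_rng _ _ _ h).2.1⟩
      · exact ⟨(inK_rng _ _ _ h).1, (inK_rng _ _ _ h).2.1⟩
    · left
      rw [layer_KK, layer_KK, Set.eq_empty_iff_forall_notMem]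
      intro a ha
      apply hk
      rcases ha with ha | ha
      · have := (inK_rng _ _ _ ha).2.2
        rw [mem_rng] at this
        rw [mem_rngc]
        omega
      · have := (inK_rng _ _ _ ha).2.2
        rw [mem_rng] at this
        rw [mem_rngc]
        omega

end Pool.Agent.Run7.h207.Ortho
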