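import Pool.Agent.Run7.h207.Ortho.Geom

/-! # Affine frames of the placed squares -/

set_option autoImplicit false

namespace Pool.Agent.Run7.h207.Ortho

open Relation Complex

/-- the minimal corner of a square -/
def base (s : Pt 3 × Pt 3) : Pt 3 := fun i => max (s.1 i) (s.2 i)

/-- twice the centre of a square -/
def cen (s : Pt 3 × Pt 3) : Pt 3 := fun i => s.1 i + s.2 i + 1

/-- the unit vector -/
def e3 (j : Fin 3) : Pt 3 := Pi.single j 1

noncomputable def D (φ : Pt 3 × Pt 3 → Pt 3 → ℂ) (s : Pt 3 × Pt 3) (j : Fin 3) : ℂ :=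
  if s.1 j = s.2 j then φ s (base s + e3 j) - φ s (base s) else 0

noncomputable def A (φ : Pt 3 × Pt 3 → Pt 3 → ℂ) (s : Pt 3 × Pt 3) : Pt 3 →ₗ[ℤ] ℂ :=
  Fintype.linearCombination ℤ (D φ s)

noncomputable def B (φ : Pt 3 × Pt 3 → Pt 3 → ℂ) (s : Pt 3 × Pt 3) : ℂ :=
  φ s (base s) - A φ s (base s)

variable {K : Set (Pt 3)} {cut : Set (Sym2 (Pt 3))} {φ : Pt 3 × Pt 3 → Pt 3 → ℂ}

theorem A_e3 (s : Pt 3 × Pt 3) (j : Fin 3) : A φ s (e3 j) = D φ s j := by
  rw [A, e3]
  simp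

theorem A_zsmul (s : Pt 3 × Pt 3) (a : ℤ) (x : Pt 3) : A φ s (a • x) = a * A φ s x := by
  rw [map_smul, zsmul_eq_mul]

theorem adj_three {a b : Pt 3} (h : Adj a b) : ∃ i j k : Fin 3, i ≠ j ∧ i ≠ k ∧ j ≠ k ∧
    a j = b j ∧ a k = b k ∧ (a i = b i + 1 ∨ b i = a i + 1) := by
  unfold Adj at h
  rw [Fin.sum_univ_three] at h
  have h0 := abs_nonneg (a 0 - b 0)
  have h1 := abs_nonneg (a 1 - b 1)
  have h2 := abs_nonneg (a 2 - b 2)
  have hz : ∀ x y : ℤ, |x - y| = 0 → x = y := fun x y hxy => by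
    rw [abs_eq_zero] at hxy; omega
  have ho : ∀ x y : ℤ, |x - y| = 1 → (x = y + 1 ∨ y = x + 1) := fun x y hxy => by
    rcases (abs_eq (by norm_num : (0 : ℤ) ≤ 1)).1 hxy with h | h <;> omega
  by_cases c0 : |a 0 - b 0| = 0
  · by_cases c1 : |a 1 - b 1| = 0
    · exact ⟨2, 0, 1, by decide, by decide, by decide, hz _ _ c0, hz _ _ c1, ho _ _ (by omega)⟩
    · exact ⟨1, 0, 2, by decide, by decide, by decide, hz _ _ c0, hz _ _ (by omega),
        ho _ _ (by omega)⟩
  · exact ⟨0, 1, 2, by decide, by decide, by decide, hz _ _ (by omega), hz _ _ (by omega),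
      ho _ _ (by omega)⟩

theorem three_cases {i j k : Fin 3} (hij : i ≠ j) (hik : i ≠ k) (hjk : j ≠ k) (m : Fin 3) :
    m = i ∨ m = j ∨ m = k := by
  revert i j k m
  decide

/-- the corners of a square -/
theorem corners_of {s : Pt 3 × Pt 3} {i j k : Fin 3} (hij : i ≠ j) (hik : i ≠ k) (hjk : j ≠ k)
    (hj : s.1 j = s.2 j) (hk : s.1 k = s.2 k) (hi : s.1 i = s.2 i + 1 ∨ s.2 i = s.1 i + 1)
    (p : Pt 3) : SqCorner s p ↔ ∃ a b : ℤ, (a = 0 ∨ a = 1) ∧ (b = 0 ∨ b = 1) ∧
      p = base s + a • e3 j + b • e3 k := by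
  have hval : ∀ (a b : ℤ), (base s + a • e3 j + b • e3 k) i = base s i ∧
      (base s + a • e3 j + b • e3 k) j = base s j + a ∧
      (base s + a • e3 j + b • e3 k) k = base s k + b := by
    intro a b
    simp only [Pi.add_apply, Pi.smul_apply, e3, smul_eq_mul]
    rw [Pi.single_eq_of_ne hij, Pi.single_eq_of_ne hik, Pi.single_eq_same,
      Pi.single_eq_of_ne hjk, Pi.single_eq_of_ne hjk.symm, Pi.single_eq_same]
    refine ⟨by ring, by ring, by ring⟩
  constructor
  · rintro ⟨h1, h2⟩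
    have a1 := h1 i
    have a2 := h2 i
    have b1 := h1 j
    have c1 := h1 k
    refine ⟨p j - base s j, p k - base s k, ?_, ?_, ?_⟩
    · simp only [base, hj, max_self] at *; omega
    · simp only [base, hk, max_self] at *; omega
    · obtain ⟨v1, v2, v3⟩ := hval (p j - base s j) (p k - base s k)
      funext m
      rcases three_cases hij hik hjk m with rfl | rfl | rfl
      · rw [v1]
        simp only [base]
        omega
      · rw [v2]; ring
      · rw [v3]; ring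
  · rintro ⟨a, b, ha, hb, rfl⟩
    obtain ⟨v1, v2, v3⟩ := hval a b
    constructor
    · intro m
      rcases three_cases hij hik hjk m with rfl | rfl | rfl
      · rw [v1]; simp only [base]; omega
      · rw [v2]; simp only [base]; omega
      · rw [v3]; simp only [base]; omega
    · intro m
      rcases three_cases hij hik hjk m with rfl | rfl | rfl
      · rw [v1]; simp only [base]; omega
      · rw [v2]; simp only [base]; omega
      · rw [v3]; simp only [base]; omega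

/-- the frame of a placed square -/
theorem frame (h : IsEdgeUnfolding K cut φ) {s : Pt 3 × Pt 3} (hs : s ∈ Bd K) :
    ∃ i j k : Fin 3, i ≠ j ∧ i ≠ k ∧ j ≠ k ∧ s.1 j = s.2 j ∧ s.1 k = s.2 k ∧
      (s.1 i = s.2 i + 1 ∨ s.2 i = s.1 i + 1) ∧ ‖D φ s j‖ ^ 2 = 1 ∧
      (D φ s k = I * D φ s j ∨ D φ s k = -(I * D φ s j)) ∧ D φ s i = 0 ∧
      ∀ a b : ℤ, (a = 0 ∨ a = 1) → (b = 0 ∨ b = 1) →
        φ s (base s + a • e3 j + b • e3 k) = φ s (base s) + a * D φ s j + b * D φ s k := by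
  obtain ⟨i, j, k, hij, hik, hjk, hj, hk, hi⟩ := adj_three hs.2.2
  refine ⟨i, j, k, hij, hik, hjk, hj, hk, hi, ?_⟩
  have hc := corners_of hij hik hjk hj hk hi
  have hD : ∀ a b : ℤ, (a = 0 ∨ a = 1) → (b = 0 ∨ b = 1) → ∀ a' b' : ℤ, (a' = 0 ∨ a' = 1) →
      (b' = 0 ∨ b' = 1) → ‖φ s (base s + a • e3 j + b • e3 k) -
        φ s (base s + a' • e3 j + b' • e3 k)‖ ^ 2 = (a - a') ^ 2 + (b - b') ^ 2 := by
    intro a b ha hb a' b' ha' hb'
    rw [h.isometric s hs _ _ ((hc _).2 ⟨a, b, ha, hb, rfl⟩) ((hc _).2 ⟨a', b', ha', hb', rfl⟩)]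
    have hsum : ∀ f : Fin 3 → ℝ, ∑ m, f m = f i + f j + f k := by
      intro f
      have : (Finset.univ : Finset (Fin 3)) = {i, j, k} := by
        ext m
        simpa using three_cases hij hik hjk m
      rw [this, Finset.sum_insert (by simp [hij, hik]), Finset.sum_insert (by simp [hjk]),
        Finset.sum_singleton]
      ring
    rw [hsum]
    simp only [Pi.add_apply, Pi.smul_apply, e3, smul_eq_mul]
    rw [Pi.single_eq_of_ne hij, Pi.single_eq_of_ne hik, Pi.single_eq_same,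
      Pi.single_eq_of_ne hjk, Pi.single_eq_of_ne hjk.symm, Pi.single_eq_same]
    push_cast
    ring
  have hb0 : base s = base s + (0 : ℤ) • e3 j + (0 : ℤ) • e3 k := by simp
  have hb1 : base s + e3 j = base s + (1 : ℤ) • e3 j + (0 : ℤ) • e3 k := by simp
  have hb2 : base s + e3 k = base s + (0 : ℤ) • e3 j + (1 : ℤ) • e3 k := by simp
  have z : (0 : ℤ) = 0 ∨ (0 : ℤ) = 1 := Or.inl rfl
  have o : (1 : ℤ) = 0 ∨ (1 : ℤ) = 1 := Or.inr rfl
  obtain ⟨u, hu⟩ : ∃ u, u = D φ s j := ⟨_, rfl⟩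
  obtain ⟨v, hv⟩ : ∃ v, v = D φ s k := ⟨_, rfl⟩
  obtain ⟨w, hw⟩ : ∃ w, w = φ s (base s + (1 : ℤ) • e3 j + (1 : ℤ) • e3 k) - φ s (base s) :=
    ⟨_, rfl⟩
  have hu' : u = φ s (base s + (1 : ℤ) • e3 j + (0 : ℤ) • e3 k) -
      φ s (base s + (0 : ℤ) • e3 j + (0 : ℤ) • e3 k) := by
    rw [hu, D, if_pos hj, ← hb1, ← hb0]
  have hv' : v = φ s (base s + (0 : ℤ) • e3 j + (1 : ℤ) • e3 k) -
      φ s (base s + (0 : ℤ) • e3 j + (0 : ℤ) • e3 k) := by
    rw [hv, D, if_pos hk, ← hb2, ← hb0]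
  have hw' : w = φ s (base s + (1 : ℤ) • e3 j + (1 : ℤ) • e3 k) -
      φ s (base s + (0 : ℤ) • e3 j + (0 : ℤ) • e3 k) := by
    rw [hw, ← hb0]
  have n1 : ‖u‖ ^ 2 = 1 := by rw [hu', hD 1 0 o z 0 0 z z]; norm_num
  have n2 : ‖v‖ ^ 2 = 1 := by rw [hv', hD 0 1 z o 0 0 z z]; norm_num
  have n3 : ‖u - v‖ ^ 2 = 2 := by
    rw [show u - v = φ s (base s + (1 : ℤ) • e3 j + (0 : ℤ) • e3 k) -
      φ s (base s + (0 : ℤ) • e3 j + (1 : ℤ) • e3 k) by rw [hu', hv']; ring,
      hD 1 0 o z 0 1 z o]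
    norm_num
  have n4 : ‖w‖ ^ 2 = 2 := by rw [hw', hD 1 1 o o 0 0 z z]; norm_num
  have n5 : ‖w - u‖ ^ 2 = 1 := by
    rw [show w - u = φ s (base s + (1 : ℤ) • e3 j + (1 : ℤ) • e3 k) -
      φ s (base s + (1 : ℤ) • e3 j + (0 : ℤ) • e3 k) by rw [hw', hu']; ring,
      hD 1 1 o o 1 0 o z]
    norm_num
  have n6 : ‖w - v‖ ^ 2 = 1 := by
    rw [show w - v = φ s (base s + (1 : ℤ) • e3 j + (1 : ℤ) • e3 k) -
      φ s (base s + (0 : ℤ) • e3 j + (1 : ℤ) • e3 k) by rw [hw', hv']; ring,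
      hD 1 1 o o 0 1 z o]
    norm_num
  obtain ⟨r1, r2⟩ := rigid n1 n2 n3 n4 n5 n6
  rw [← hu, ← hv]
  refine ⟨n1, r2, ?_, ?_⟩
  · rw [D, if_neg]
    omega
  · rintro a b (rfl | rfl) (rfl | rfl)
    · rw [← hb0]; push_cast; ring
    · have := hv'
      rw [← hb0] at this
      rw [eq_sub_iff_add_eq] at this
      rw [← this]; push_cast; ring
    · have := hu'
      rw [← hb0] at this
      rw [eq_sub_iff_add_eq] at this
      rw [← this]; push_cast; ring
    · have := hw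
      rw [eq_sub_iff_add_eq] at this
      rw [← this, r1]; push_cast; ring

theorem phi_corner (h : IsEdgeUnfolding K cut φ) {s : Pt 3 × Pt 3} (hs : s ∈ Bd K) {p : Pt 3}
    (hp : SqCorner s p) : φ s p = B φ s + A φ s p := by
  obtain ⟨i, j, k, hij, hik, hjk, hj, hk, hi, _, _, _, hf⟩ := frame h hs
  obtain ⟨a, b, ha, hb, rfl⟩ := (corners_of hij hik hjk hj hk hi p).1 hp
  rw [hf a b ha hb, B, map_add, map_add, map_smul, map_smul, A_e3, A_e3, zsmul_eq_mul,
    zsmul_eq_mul]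
  ring

theorem A_normal {s : Pt 3 × Pt 3} (hs : s ∈ Bd K) : A φ s (normal s) = 0 := by
  obtain ⟨i, j, k, hij, hik, hjk, hj, hk, hi⟩ := adj_three hs.2.2
  have h1 : normal s = (s.2 i - s.1 i) • e3 i := by
    funext m
    simp only [normal, Pi.sub_apply, Pi.smul_apply, e3, smul_eq_mul]
    rcases three_cases hij hik hjk m with rfl | rfl | rfl
    · rw [Pi.single_eq_same]; ring
    · rw [Pi.single_eq_of_ne hij.symm, hj]; ring
    · rw [Pi.single_eq_of_ne hik.symm, hk]; ring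
  rw [h1, map_smul, A_e3, D, if_neg (by omega), smul_zero]

/-- the centres -/
theorem center_int (h : IsEdgeUnfolding K cut φ) {s : Pt 3 × Pt 3} (hs : s ∈ Bd K) :
    (2 * B φ s + A φ s (cen s)) / 2 ∈
      interior (convexHull ℝ (φ s '' {p | SqCorner s p})) := by
  obtain ⟨i, j, k, hij, hik, hjk, hj, hk, hi, h1, h2, h3, hf⟩ := frame h hs
  have hc := corners_of hij hik hjk hj hk hi
  have hcen : cen s = (2 : ℤ) • base s + e3 j + e3 k := by
    funext m
    simp only [cen, base, Pi.add_apply, Pi.smul_apply, e3, smul_eq_mul]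
    rcases three_cases hij hik hjk m with rfl | rfl | rfl
    · rw [Pi.single_eq_of_ne hij, Pi.single_eq_of_ne hik]; omega
    · rw [Pi.single_eq_same, Pi.single_eq_of_ne hjk]; omega
    · rw [Pi.single_eq_same, Pi.single_eq_of_ne hjk.symm]; omega
  have z : (0 : ℤ) = 0 ∨ (0 : ℤ) = 1 := Or.inl rfl
  have o : (1 : ℤ) = 0 ∨ (1 : ℤ) = 1 := Or.inr rfl
  have mem : ∀ a b : ℤ, (a = 0 ∨ a = 1) → (b = 0 ∨ b = 1) →
      φ s (base s) + a * D φ s j + b * D φ s k ∈ φ s '' {p | SqCorner s p} := by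
    intro a b ha hb
    rw [← hf a b ha hb]
    exact ⟨_, (hc _).2 ⟨a, b, ha, hb, rfl⟩, rfl⟩
  have := center_mem (S := φ s '' {p | SqCorner s p}) (φ s (base s)) (D φ s j) (D φ s k) h1 h2
    (by simpa using mem 0 0 z z) (by simpa using mem 1 0 o z) (by simpa using mem 0 1 z o)
    (by simpa using mem 1 1 o o)
  convert this using 1
  rw [B, hcen, map_add, map_add, map_smul, A_e3, A_e3, zsmul_eq_mul]
  push_cast
  ring

/-- placed centres of different squares are different -/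
theorem center_ne (h : IsEdgeUnfolding K cut φ) {s t : Pt 3 × Pt 3} (hs : s ∈ Bd K)
    (ht : t ∈ Bd K) (hst : s ≠ t) :
    2 * B φ s + A φ s (cen s) ≠ 2 * B φ t + A φ t (cen t) := by
  intro heq
  have h1 := center_int h hs
  have h2 := center_int h ht
  rw [← heq] at h2
  exact Set.disjoint_left.1 (h.disjoint s hs t ht hst) h1 h2

theorem perp (h : IsEdgeUnfolding K cut φ) {s : Pt 3 × Pt 3} (hs : s ∈ Bd K) {p q : Pt 3}
    (hp : SqCorner s p) (hq : SqCorner s q) (hpq : Adj p q) :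
    ∃ ε : ℂ, (ε = 1 ∨ ε = -1) ∧ A φ s (cen s - p - q) = ε * (I * A φ s (q - p)) := by
  obtain ⟨i, j, k, hij, hik, hjk, hj, hk, hi, h1, h2, h3, hf⟩ := frame h hs
  have hc := corners_of hij hik hjk hj hk hi
  obtain ⟨a, b, ha, hb, rfl⟩ := (hc p).1 hp
  obtain ⟨a', b', ha', hb', rfl⟩ := (hc q).1 hq
  have hcen : cen s = (2 : ℤ) • base s + e3 j + e3 k := by
    funext m
    simp only [cen, base, Pi.add_apply, Pi.smul_apply, e3, smul_eq_mul]
    rcases three_cases hij hik hjk m with rfl | rfl | rfl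
    · rw [Pi.single_eq_of_ne hij, Pi.single_eq_of_ne hik]; omega
    · rw [Pi.single_eq_same, Pi.single_eq_of_ne hjk]; omega
    · rw [Pi.single_eq_same, Pi.single_eq_of_ne hjk.symm]; omega
  have hd : (a - a').natAbs + (b - b').natAbs = 1 := by
    have hsum : ∀ f : Fin 3 → ℤ, ∑ m, f m = f i + f j + f k := by
      intro f
      have : (Finset.univ : Finset (Fin 3)) = {i, j, k} := by
        ext m
        simpa using three_cases hij hik hjk m
      rw [this, Finset.sum_insert (by simp [hij, hik]), Finset.sum_insert (by simp [hjk]),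
        Finset.sum_singleton]
      ring
    unfold Adj at hpq
    rw [hsum] at hpq
    simp only [Pi.add_apply, Pi.smul_apply, e3, smul_eq_mul] at hpq
    rw [Pi.single_eq_of_ne hij, Pi.single_eq_of_ne hik, Pi.single_eq_same,
      Pi.single_eq_of_ne hjk, Pi.single_eq_of_ne hjk.symm, Pi.single_eq_same] at hpq
    have e1 : base s i + a * 0 + b * 0 - (base s i + a' * 0 + b' * 0) = 0 := by ring
    have e2 : base s j + a * 1 + b * 0 - (base s j + a' * 1 + b' * 0) = a - a' := by ring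
    have e3 : base s k + a * 0 + b * 1 - (base s k + a' * 0 + b' * 1) = b - b' := by ring
    rw [e1, e2, e3, abs_zero, zero_add, ← Int.natCast_natAbs, ← Int.natCast_natAbs] at hpq
    exact_mod_cast hpq
  have hu : A φ s (cen s - (base s + a • e3 j + b • e3 k) - (base s + a' • e3 j + b' • e3 k)) =
      ((1 - a - a' : ℤ) : ℂ) * D φ s j + ((1 - b - b' : ℤ) : ℂ) * D φ s k := by
    rw [hcen]
    simp only [map_sub, map_add, A_zsmul, A_e3]
    push_cast
    ring
  have he : A φ s ((base s + a' • e3 j + b' • e3 k) - (base s + a • e3 j + b • e3 k)) =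
      ((a' - a : ℤ) : ℂ) * D φ s j + ((b' - b : ℤ) : ℂ) * D φ s k := by
    simp only [map_sub, map_add, A_zsmul, A_e3]
    push_cast
    ring
  rw [hu, he]
  have hI : I * I = -1 := Complex.I_mul_I
  rcases ha with rfl | rfl <;> rcases hb with rfl | rfl <;> rcases ha' with rfl | rfl <;>
    rcases hb' with rfl | rfl <;> first
    | (exfalso; revert hd; decide)
    | skip
  all_goals
    rcases h2 with h2 | h2 <;> rw [h2] <;> push_cast
  all_goals first
    | (refine ⟨1, Or.inl rfl, ?_⟩; linear_combination (0 : ℂ) * hI; done)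
    | (refine ⟨-1, Or.inr rfl, ?_⟩; linear_combination (0 : ℂ) * hI; done)
    | (refine ⟨1, Or.inl rfl, ?_⟩; linear_combination D φ s j * hI; done)
    | (refine ⟨1, Or.inl rfl, ?_⟩; linear_combination -D φ s j * hI; done)
    | (refine ⟨-1, Or.inr rfl, ?_⟩; linear_combination D φ s j * hI; done)
    | (refine ⟨-1, Or.inr rfl, ?_⟩; linear_combination -D φ s j * hI; done)

/-- Two squares glued along a side lie on different sides of it. -/
theorem opposite (h : IsEdgeUnfolding K cut φ) {s t : Pt 3 × Pt 3} (hs : s ∈ Bd K)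
    (ht : t ∈ Bd K) (hst : s ≠ t) {p q : Pt 3} (hsh : Share s t p q) (hp : φ s p = φ t p)
    (hq : φ s q = φ t q) : A φ t (q - p) = A φ s (q - p) ∧
      A φ t (cen t - p - q) = -A φ s (cen s - p - q) := by
  obtain ⟨hpq, s1, s2, t1, t2⟩ := hsh
  have e1 : A φ t (q - p) = A φ s (q - p) := by
    rw [map_sub, map_sub]
    have a1 := phi_corner h hs s1
    have a2 := phi_corner h hs s2
    have a3 := phi_corner h ht t1
    have a4 := phi_corner h ht t2
    linear_combination a3 - a4 + a2 - a1 + hp - hq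
  refine ⟨e1, ?_⟩
  obtain ⟨ε, hε, h1⟩ := perp h hs s1 s2 hpq
  obtain ⟨δ, hδ, h2⟩ := perp h ht t1 t2 hpq
  rw [e1] at h2
  have hne : ε ≠ δ := by
    intro hεδ
    refine center_ne h hs ht hst ?_
    have b1 : 2 * B φ s + A φ s (cen s) = φ s p + φ s q + A φ s (cen s - p - q) := by
      rw [phi_corner h hs s1, phi_corner h hs s2, map_sub, map_sub]; ring
    have b2 : 2 * B φ t + A φ t (cen t) = φ t p + φ t q + A φ t (cen t - p - q) := by
      rw [phi_corner h ht t1, phi_corner h ht t2, map_sub, map_sub]; ring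
    rw [b1, b2, h1, h2, hεδ, hp, hq]
  rw [h1, h2]
  rcases hε with rfl | rfl <;> rcases hδ with rfl | rfl
  · exact absurd rfl hne
  · ring
  · ring
  · exact absurd rfl hne

end Pool.Agent.Run7.h207.Ortho
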