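import Pool.Agent.Run7.h207.Ortho.Dirs
import Pool.Agent.Run7.h207.Ortho.Frame

/-! # How the placements of two glued squares are related -/

set_option autoImplicit false

namespace Pool.Agent.Run7.h207.Ortho

open Relation Complex

abbrev T3 := ℤ × ℤ × ℤ

/-- the square of the cube `c` in direction `i` -/
def sq (c : T3) (i : Fin 6) : Pt 3 × Pt 3 := (pt c, pt (c + dv i))

/-- twice the centre -/
def cenT (c : T3) (i : Fin 6) : T3 := c + (c + dv i) + (1, 1, 1)

theorem cen_sq (c : T3) (i : Fin 6) : cen (sq c i) = pt (cenT c i) := by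
  funext m
  fin_cases m <;> rfl

theorem normal_sq (c : T3) (i : Fin 6) : normal (sq c i) = dvec i := by
  show pt (c + dv i) - pt c = pt (dv i)
  rw [pt_add]
  abel

theorem dv_inj {i j : Fin 6} (h : dv i = dv j) : i = j := by
  revert i j
  decide

theorem sq_inj {c c' : T3} {i i' : Fin 6} (h : sq c i = sq c' i') : c = c' ∧ i = i' := by
  have h1 : c = c' := by
    have := congrArg (fun s => toT s.1) h
    simpa [sq, toT_pt] using this
  subst h1
  refine ⟨rfl, dv_inj ?_⟩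
  have := congrArg (fun s => toT s.2) h
  simpa [sq, toT_pt] using this

theorem exists_sq {K : Set (Pt 3)} {s : Pt 3 × Pt 3} (hs : s ∈ Bd K) : ∃ c i, s = sq c i := by
  obtain ⟨i, hi⟩ := exists_dir hs.2.2
  refine ⟨toT s.1, i, ?_⟩
  refine Prod.ext (pt_toT _).symm ?_
  show s.2 = pt (toT s.1 + dv i)
  rw [hi, pt_add, pt_toT]
  rfl

theorem sq_mem {K : Set (Pt 3)} {c : T3} {i : Fin 6} :
    sq c i ∈ Bd K ↔ pt c ∈ K ∧ pt (c + dv i) ∉ K := by
  constructor
  · intro h
    exact ⟨h.1, h.2.1⟩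
  · intro h
    refine ⟨h.1, h.2, ?_⟩
    show Adj (pt c) (pt (c + dv i))
    rw [pt_add]
    exact adj_dvec _ _

theorem share_cases {c c' : T3} {i i' : Fin 6} {p q : Pt 3}
    (h : Share (sq c i) (sq c' i') p q) :
    (c' = c ∧ i' = i) ∨ (c' = c + dv i ∧ i' = opp i) ∨
    ∃ j k, q = p + dvec k ∧ ax j ≠ ax i ∧ ax k ≠ ax i ∧ ax k ≠ ax j ∧
      cen (sq c i) - p - q = -dvec j ∧
      ((c' = c + dv j ∧ i' = i ∧ cen (sq c' i') - p - q = dvec j) ∨
        (c' = c ∧ i' = j ∧ cen (sq c' i') - p - q = -dvec i) ∨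
        (c' = c + dv i + dv j ∧ i' = opp j ∧ cen (sq c' i') - p - q = dvec i) ∨
        (c' = c + dv i + dv j ∧ i' = opp i) ∨ (c' = c + dv j ∧ i' = opp j) ∨
        (c' = c + dv i ∧ i' = j)) := by
  obtain ⟨hpq, s1, s2, t1, t2⟩ := h
  obtain ⟨k, rfl⟩ := exists_dir hpq
  have e0 : (0 : T3) = toT p - toT p := by rw [sub_self]
  have e1 : dv k = toT (p + dvec k) - toT p := by
    rw [toT_add, dvec, toT_pt]; abel
  have key : ∀ (a : T3) (r : Pt 3), Corner (pt a) r → cornerT (a - toT p) (toT r - toT p) = true := by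
    intro a r h
    rw [cornerT_sub, ← cornerT_iff, toT_pt] at *
    exact h
  have a1 := key _ _ s1.1
  have a2 := key _ _ s1.2
  have a3 := key _ _ s2.1
  have a4 := key _ _ s2.2
  have b1 := key _ _ t1.1
  have b2 := key _ _ t1.2
  have b3 := key _ _ t2.1
  have b4 := key _ _ t2.2
  rw [← e0] at a1 a2 b1 b2
  rw [← e1] at a3 a4 b3 b4
  have r1 : ∀ (a : T3) (l : Fin 6), a + dv l - toT p = a - toT p + dv l := fun a l => by abel
  rw [r1] at a2 a4 b2 b4
  have h1 := shareT_cases _ (mem_offs3 _ a1) _ (mem_offs3 _ b1) i i' k (by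
    simp only [shareT, a2, a3, a4, b2, b3, b4, Bool.and_true])
  have ecen : ∀ (a : T3) (l : Fin 6), cen (sq a l) - p - (p + dvec k) =
      pt ((a - toT p) + ((a - toT p) + dv l) + (1, 1, 1) - dv k) := by
    intro a l
    rw [cen_sq, cenT]
    apply toT_inj
    simp only [toT_add, toT_sub, toT_pt, dvec]
    abel
  rcases h1 with ⟨h1, h2⟩ | ⟨h1, h2⟩ | ⟨j, hj⟩
  · exact Or.inl ⟨sub_left_inj.1 h1, h2⟩
  · refine Or.inr (Or.inl ⟨?_, h2⟩)
    rw [← r1, sub_left_inj] at h1
    exact h1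
  · refine Or.inr (Or.inr ⟨j, k, rfl, ?_⟩)
    simp only [conclT, Bool.and_eq_true, Bool.or_eq_true, decide_eq_true_eq] at hj
    obtain ⟨⟨⟨⟨h1, h2⟩, h3⟩, h4⟩, h5⟩ := hj
    refine ⟨h1, h2, h3, ?_, ?_⟩
    · rw [ecen, h4, pt_neg]; rfl
    · have r2 : ∀ a : T3, c' - toT p = a - toT p ↔ c' = a := fun a => sub_left_inj
      simp only [← r1, r2] at h5
      rw [ecen]
      rcases h5 with ((((h5 | h5) | h5) | h5) | h5) | h5
      · refine Or.inl ⟨h5.1.1, h5.1.2, ?_⟩
        have := h5.2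
        rw [← r1] at *
        rw [this]; rfl
      · refine Or.inr (Or.inl ⟨h5.1.1, h5.1.2, ?_⟩)
        have := h5.2
        rw [← r1] at *
        rw [this, pt_neg]; rfl
      · refine Or.inr (Or.inr (Or.inl ⟨h5.1.1, h5.1.2, ?_⟩))
        have := h5.2
        rw [← r1] at *
        rw [this]; rfl
      · exact Or.inr (Or.inr (Or.inr (Or.inl h5)))
      · exact Or.inr (Or.inr (Or.inr (Or.inr (Or.inl h5))))
      · exact Or.inr (Or.inr (Or.inr (Or.inr (Or.inr h5))))

def sgn : Fin 6 → ℤ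
  | 0 => 1
  | 1 => -1
  | 2 => 1
  | 3 => -1
  | 4 => 1
  | 5 => -1

theorem sgn_sq (i : Fin 6) : sgn i * sgn i = 1 := by
  revert i; decide

theorem dvec_eq (i : Fin 6) : dvec i = sgn i • e3 (ax i) := by
  revert i; decide

/-- scalar product with a direction -/
def dot (x : Pt 3) (i : Fin 6) : ℤ := sgn i * x (ax i)

theorem dot_add (x y : Pt 3) (i : Fin 6) : dot (x + y) i = dot x i + dot y i := by
  simp only [dot, Pi.add_apply]; ring

theorem dot_sub (x y : Pt 3) (i : Fin 6) : dot (x - y) i = dot x i - dot y i := by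
  simp only [dot, Pi.sub_apply]; ring

theorem dot_smul (a : ℤ) (x : Pt 3) (i : Fin 6) : dot (a • x) i = a * dot x i := by
  simp only [dot, Pi.smul_apply, smul_eq_mul]; ring

theorem dot_neg (x : Pt 3) (i : Fin 6) : dot (-x) i = -dot x i := by
  simp only [dot, Pi.neg_apply]; ring

theorem dot_dvec_self (i : Fin 6) : dot (dvec i) i = 1 := by
  revert i; decide

theorem dot_dvec_ne {i j : Fin 6} (h : ax i ≠ ax j) : dot (dvec i) j = 0 := by
  revert i j; decide

theorem dot_opp (x : Pt 3) (j : Fin 6) : dot x (opp j) = -dot x j := by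
  have h1 : sgn (opp j) = -sgn j := by revert j; decide
  have h2 : ax (opp j) = ax j := by revert j; decide
  rw [dot, dot, h1, h2]; ring

theorem decomp {i j k : Fin 6} (hij : ax i ≠ ax j) (hik : ax i ≠ ax k) (hjk : ax j ≠ ax k)
    (x : Pt 3) : x = dot x i • dvec i + dot x j • dvec j + dot x k • dvec k := by
  have key : ∀ l : Fin 6, dot x l • dvec l = x (ax l) • e3 (ax l) := by
    intro l
    rw [dvec_eq, smul_smul, dot]
    congr 1
    have := sgn_sq l
    linear_combination x (ax l) * this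
  rw [key, key, key]
  funext m
  simp only [Pi.add_apply, Pi.smul_apply, e3, smul_eq_mul]
  rcases three_cases hij hik hjk m with rfl | rfl | rfl
  · rw [Pi.single_eq_same, Pi.single_eq_of_ne hij, Pi.single_eq_of_ne hik]; ring
  · rw [Pi.single_eq_same, Pi.single_eq_of_ne hij.symm, Pi.single_eq_of_ne hjk]; ring
  · rw [Pi.single_eq_same, Pi.single_eq_of_ne hik.symm, Pi.single_eq_of_ne hjk.symm]; ring

variable {K : Set (Pt 3)} {cut : Set (Sym2 (Pt 3))} {φ : Pt 3 × Pt 3 → Pt 3 → ℂ}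

/-- the placement of the plane of `s`, in doubled coordinates -/
noncomputable def Psi (φ : Pt 3 × Pt 3 → Pt 3 → ℂ) (s : Pt 3 × Pt 3) (x : Pt 3) : ℂ :=
  2 * B φ s + A φ s x

theorem A_decomp (s : Pt 3 × Pt 3) {i j k : Fin 6} (hij : ax i ≠ ax j) (hik : ax i ≠ ax k)
    (hjk : ax j ≠ ax k) (x : Pt 3) :
    A φ s x = dot x i * A φ s (dvec i) + dot x j * A φ s (dvec j) + dot x k * A φ s (dvec k) := by
  conv_lhs => rw [decomp hij hik hjk x]
  rw [map_add, map_add, A_zsmul, A_zsmul, A_zsmul]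

/-- squares in one plane -/
theorem flat_psi (h : IsEdgeUnfolding K cut φ) {s t : Pt 3 × Pt 3} (hs : s ∈ Bd K)
    (ht : t ∈ Bd K) (hst : s ≠ t) {p q : Pt 3} (hsh : Share s t p q) (hp : φ s p = φ t p)
    (hq : φ s q = φ t q) {i j k : Fin 6} (hij : ax i ≠ ax j) (hik : ax i ≠ ax k)
    (hjk : ax j ≠ ax k) (ns : normal s = dvec i) (nt : normal t = dvec i)
    (hk : q = p + dvec k) (hcs : cen s - p - q = -dvec j) (hct : cen t - p - q = dvec j)
    (x : Pt 3) : Psi φ t x = Psi φ s x := by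
  obtain ⟨h1, h2⟩ := opposite h hs ht hst hsh hp hq
  rw [hcs, hct, map_neg, neg_neg] at h2
  rw [hk, add_sub_cancel_left] at h1
  have h3 : A φ s (dvec i) = 0 := by rw [← ns]; exact A_normal hs
  have h4 : A φ t (dvec i) = 0 := by rw [← nt]; exact A_normal ht
  have hA : ∀ x, A φ t x = A φ s x := by
    intro x
    rw [A_decomp t hij hik hjk x, A_decomp s hij hik hjk x, h1, h2, h3, h4]
  have a1 := phi_corner h hs hsh.2.1
  have a3 := phi_corner h ht hsh.2.2.2.1
  have hB : B φ t = B φ s := by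
    rw [hA] at a3
    linear_combination a1 - a3 - hp
  rw [Psi, Psi, hA, hB]

/-- squares in perpendicular planes -/
theorem fold_psi (h : IsEdgeUnfolding K cut φ) {s t : Pt 3 × Pt 3} (hs : s ∈ Bd K)
    (ht : t ∈ Bd K) (hst : s ≠ t) {p q : Pt 3} (hsh : Share s t p q) (hp : φ s p = φ t p)
    (hq : φ s q = φ t q) {i j k i' : Fin 6} {ε : ℤ} (hε : ε * ε = 1)
    (hij : ax i ≠ ax j) (hik : ax i ≠ ax k)
    (hjk : ax j ≠ ax k) (ns : normal s = dvec i) (nt : normal t = dvec i')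
    (hi' : dvec i' = ε • dvec j) (hdi : ∀ x, dot x i' = ε * dot x j)
    (hk : q = p + dvec k) (hcs : cen s - p - q = -dvec j) (hct : cen t - p - q = -(ε • dvec i))
    (x : Pt 3) : Psi φ t x =
      Psi φ s (x - (dot x i + dot x i' - dot (cen s) i - dot (cen t) i') • dvec i') := by
  obtain ⟨h1, h2⟩ := opposite h hs ht hst hsh hp hq
  have hεC : (ε : ℂ) * ε = 1 := by exact_mod_cast congrArg (Int.cast : ℤ → ℂ) hε
  rw [hcs, hct, map_neg, map_neg, neg_neg, A_zsmul] at h2
  rw [hk, add_sub_cancel_left] at h1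
  have h3 : A φ s (dvec i) = 0 := by rw [← ns]; exact A_normal hs
  have h4 : A φ t (dvec j) = 0 := by
    have := A_normal (φ := φ) ht
    rw [nt, hi', A_zsmul] at this
    linear_combination (ε : ℂ) * this - A φ t (dvec j) * hεC
  have h5 : A φ t (dvec i) = -(ε : ℂ) * A φ s (dvec j) := by
    linear_combination -(ε : ℂ) * h2 - A φ t (dvec i) * hεC
  have hs2 : (2 : ℤ) • p = cen s + dvec j - dvec k := by
    have : cen s = -dvec j + p + q := by rw [← hcs]; abel
    rw [this, hk, two_zsmul]; abel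
  have ht2 : (2 : ℤ) • p = cen t + ε • dvec i - dvec k := by
    have : cen t = -(ε • dvec i) + p + q := by rw [← hct]; abel
    rw [this, hk, two_zsmul]; abel
  have dps : dot ((2 : ℤ) • p) i = dot (cen s) i := by
    rw [hs2, dot_sub, dot_add, dot_dvec_ne hij.symm, dot_dvec_ne hik.symm]; ring
  have dpt : dot ((2 : ℤ) • p) i' = dot (cen t) i' := by
    rw [ht2, dot_sub, dot_add, dot_smul]
    have e1 : dot (dvec i) i' = 0 := by rw [hdi, dot_dvec_ne hij, mul_zero]
    have e2 : dot (dvec k) i' = 0 := by rw [hdi, dot_dvec_ne hjk.symm, mul_zero]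
    rw [e1, e2]; ring
  have dpt' : dot (cen t) i' = ε * dot ((2 : ℤ) • p) j := by rw [← dpt, hdi]
  have a1 := phi_corner h hs hsh.2.1
  have a3 := phi_corner h ht hsh.2.2.2.1
  have b1 : A φ s ((2 : ℤ) • p) = 2 * A φ s p := by rw [A_zsmul]; norm_num
  have b2 : A φ t ((2 : ℤ) • p) = 2 * A φ t p := by rw [A_zsmul]; norm_num
  rw [A_decomp s hij hik hjk ((2 : ℤ) • p), h3] at b1
  rw [A_decomp t hij hik hjk ((2 : ℤ) • p), h4, h5, h1] at b2
  rw [Psi, Psi, map_sub, A_zsmul, hi', A_zsmul, A_decomp t hij hik hjk x,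
    A_decomp s hij hik hjk x, h3, h4, h5, h1, hdi x, dpt', ← dps]
  push_cast
  linear_combination (2 : ℂ) * (a1 - a3 - hp) - b1 + b2 +
    (A φ s (dvec j) * ((dot x j : ℂ) - (dot ((2 : ℤ) • p) j : ℂ))) * hεC

end Pool.Agent.Run7.h207.Ortho
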