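import Pool.Agent.Run7.h207.Ortho.Defs

/-! # Placements of unit squares in the plane -/

set_option autoImplicit false

namespace Pool.Agent.Run7.h207.Ortho

open Relation Complex

theorem norm_sq_eq (z : ℂ) : ‖z‖ ^ 2 = z.re ^ 2 + z.im ^ 2 := by
  rw [Complex.sq_norm, Complex.normSq_apply]
  ring

theorem sq0 {a b : ℝ} (h : a ^ 2 + b ^ 2 = 0) : a = 0 ∧ b = 0 := by
  have h1 := (add_eq_zero_iff_of_nonneg (sq_nonneg a) (sq_nonneg b)).1 h
  exact ⟨pow_eq_zero_iff two_ne_zero |>.1 h1.1, pow_eq_zero_iff two_ne_zero |>.1 h1.2⟩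

theorem rigid {u v w : ℂ} (hu : ‖u‖ ^ 2 = 1) (hv : ‖v‖ ^ 2 = 1) (huv : ‖u - v‖ ^ 2 = 2)
    (hw : ‖w‖ ^ 2 = 2) (hwu : ‖w - u‖ ^ 2 = 1) (hwv : ‖w - v‖ ^ 2 = 1) :
    w = u + v ∧ (v = I * u ∨ v = -(I * u)) := by
  rw [norm_sq_eq] at hu hv huv hw hwu hwv
  simp only [sub_re, sub_im] at huv hwu hwv
  have h1 : (w.re - u.re - v.re) ^ 2 + (w.im - u.im - v.im) ^ 2 = 0 := by
    linear_combination hwu + hwv - huv + hu + hv - hw
  obtain ⟨h1a, h1b⟩ := sq0 h1
  refine ⟨Complex.ext (by simp; linarith) (by simp; linarith), ?_⟩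
  have h2 : u.re * v.re + u.im * v.im = 0 := by linear_combination (hu + hv - huv) / 2
  have h3 : (u.re * v.im - u.im * v.re) ^ 2 = 1 := by
    have : (u.re * v.im - u.im * v.re) ^ 2 =
        (u.re ^ 2 + u.im ^ 2) * (v.re ^ 2 + v.im ^ 2) - (u.re * v.re + u.im * v.im) ^ 2 := by ring
    rw [this, hu, hv, h2]
    norm_num
  have h3' : (u.re * v.im - u.im * v.re - 1) * (u.re * v.im - u.im * v.re + 1) = 0 := by
    linear_combination h3
  have h3'' : u.re * v.im - u.im * v.re = 1 ∨ u.re * v.im - u.im * v.re = -1 := by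
    rcases mul_eq_zero.1 h3' with h | h
    · left; linarith
    · right; linarith
  rcases h3'' with h4 | h4
  · left
    have h5 : (v.re + u.im) ^ 2 + (v.im - u.re) ^ 2 = 0 := by
      have : (v.re + u.im) ^ 2 + (v.im - u.re) ^ 2 =
        (u.re ^ 2 + u.im ^ 2) + (v.re ^ 2 + v.im ^ 2) - 2 * (u.re * v.im - u.im * v.re) := by ring
      rw [this, hu, hv, h4]
      norm_num
    obtain ⟨h5a, h5b⟩ := sq0 h5
    exact Complex.ext (by simp; linarith) (by simp; linarith)
  · right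
    have h5 : (v.re - u.im) ^ 2 + (v.im + u.re) ^ 2 = 0 := by
      have : (v.re - u.im) ^ 2 + (v.im + u.re) ^ 2 =
        (u.re ^ 2 + u.im ^ 2) + (v.re ^ 2 + v.im ^ 2) + 2 * (u.re * v.im - u.im * v.re) := by ring
      rw [this, hu, hv, h4]
      norm_num
    obtain ⟨h5a, h5b⟩ := sq0 h5
    exact Complex.ext (by simp; linarith) (by simp; linarith)

/-- the centre of a placed unit square is an interior point -/
theorem center_mem {S : Set ℂ} (P u v : ℂ) (hu : ‖u‖ ^ 2 = 1) (hv : v = I * u ∨ v = -(I * u))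
    (h0 : P ∈ S) (h1 : P + u ∈ S) (h2 : P + v ∈ S) (h3 : P + u + v ∈ S) :
    P + (u + v) / 2 ∈ interior (convexHull ℝ S) := by
  rw [mem_interior_iff_mem_nhds]
  refine Filter.mem_of_superset (Metric.ball_mem_nhds _ (by norm_num : (0 : ℝ) < 1 / 2)) ?_
  intro z hz
  rw [Metric.mem_ball, dist_eq_norm] at hz
  obtain ⟨w, hw⟩ : ∃ w, w = z - (P + (u + v) / 2) := ⟨_, rfl⟩
  rw [← hw] at hz
  have hv2 : ‖v‖ ^ 2 = 1 := by
    rcases hv with rfl | rfl <;> simp [hu]
  have hn : ‖w‖ ^ 2 < 1 / 4 := by nlinarith [norm_nonneg w]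
  -- coordinates of `w`
  obtain ⟨α, hα⟩ : ∃ α : ℝ, α = w.re * u.re + w.im * u.im := ⟨_, rfl⟩
  obtain ⟨β, hβ⟩ : ∃ β : ℝ, β = w.re * v.re + w.im * v.im := ⟨_, rfl⟩
  rw [norm_sq_eq] at hu hv2 hn
  have hvr : (v.re = -u.im ∧ v.im = u.re) ∨ (v.re = u.im ∧ v.im = -u.re) := by
    rcases hv with rfl | rfl
    · left; simp
    · right; simp
  have hwz : w = α * u + β * v := by
    rcases hvr with ⟨e1, e2⟩ | ⟨e1, e2⟩
    · apply Complex.ext
      · simp only [add_re, mul_re, ofReal_re, ofReal_im, zero_mul, sub_zero]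
        rw [hα, hβ, e1, e2]
        linear_combination (-w.re) * hu
      · simp only [add_im, mul_im, ofReal_re, ofReal_im, zero_mul, add_zero]
        rw [hα, hβ, e1, e2]
        linear_combination (-w.im) * hu
    · apply Complex.ext
      · simp only [add_re, mul_re, ofReal_re, ofReal_im, zero_mul, sub_zero]
        rw [hα, hβ, e1, e2]
        linear_combination (-w.re) * hu
      · simp only [add_im, mul_im, ofReal_re, ofReal_im, zero_mul, add_zero]
        rw [hα, hβ, e1, e2]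
        linear_combination (-w.im) * hu
  have hab : α ^ 2 + β ^ 2 < 1 / 4 := by
    have : α ^ 2 + β ^ 2 = w.re ^ 2 + w.im ^ 2 := by
      rcases hvr with ⟨e1, e2⟩ | ⟨e1, e2⟩
      · rw [hα, hβ, e1, e2]
        linear_combination (w.re ^ 2 + w.im ^ 2) * hu
      · rw [hα, hβ, e1, e2]
        linear_combination (w.re ^ 2 + w.im ^ 2) * hu
    rw [this]
    exact hn
  have hα1 : -(1 / 2) ≤ α ∧ α ≤ 1 / 2 := by constructor <;> nlinarith [sq_nonneg β]
  have hβ1 : -(1 / 2) ≤ β ∧ β ≤ 1 / 2 := by constructor <;> nlinarith [sq_nonneg α]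
  have hz' : z = P + (u + v) / 2 + α * u + β * v := by
    rw [show z = w + (P + (u + v) / 2) from by rw [hw]; ring, hwz]
    ring
  have hc := convex_convexHull ℝ S
  have hs : ∀ {x}, x ∈ S → x ∈ convexHull ℝ S := fun hx => subset_convexHull ℝ S hx
  have hX : (1 / 2 - α) • P + (1 / 2 + α) • (P + u) ∈ convexHull ℝ S :=
    hc (hs h0) (hs h1) (by linarith) (by linarith) (by ring)
  have hY : (1 / 2 - α) • (P + v) + (1 / 2 + α) • (P + u + v) ∈ convexHull ℝ S :=
    hc (hs h2) (hs h3) (by linarith) (by linarith) (by ring)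
  have hZ := hc hX hY (by linarith : 0 ≤ 1 / 2 - β) (by linarith : 0 ≤ 1 / 2 + β) (by ring)
  convert hZ using 1
  rw [hz']
  simp only [Complex.real_smul]
  push_cast
  ring

end Pool.Agent.Run7.h207.Ortho
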