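import Mathlib

/-! # The combinatorial argument for one ridge -/

set_option autoImplicit false

namespace Pool.Agent.Run7.h207.Ortho

section
variable {α : Type*} {U : α → α → Prop} (symm : ∀ a b, U a b → U b a)
  (conn : ∀ X : α → Prop, (∀ a b, X a → U a b → X b) → ∀ a b, X a → X b)
  {F G EF TF TG EG : α} {W : Fin 2 → α}
  (hW : ∀ w M, U (W w) M → M = F ∨ M = G ∨ M = EF ∨ M = TF ∨ M = EG ∨ M = TG)
  (hEF : ∀ M, U EF M → M = F ∨ M = TF ∨ ∃ w, M = W w)
  (hTF : ∀ M, U TF M → M = EF ∨ M = TG ∨ ∃ w, M = W w)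
  (hTG : ∀ M, U TG M → M = EG ∨ M = TF ∨ ∃ w, M = W w)
  (hEG : ∀ M, U EG M → M = G ∨ M = TG ∨ ∃ w, M = W w)
  (o1 : ∀ w, ¬ U F (W w)) (o2 : ∀ w, ¬ U G (W w))
  (o3 : ∀ w, U F EF → ¬ U EF (W w)) (p3 : ∀ w, U G EG → ¬ U EG (W w))
  (o4 : ∀ w, U F EF → U EF TF → ¬ U TF (W w))
  (p4 : ∀ w, U G EG → U EG TG → ¬ U TG (W w))
  (o5 : U F EF → U EF TF → U TF TG → ¬ U F G)
  (p5 : U G EG → U EG TG → U TG TF → ¬ U G F)
  (hne : (∀ w, F ≠ W w) ∧ F ≠ EF ∧ F ≠ TF ∧ F ≠ EG ∧ F ≠ TG)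

include symm conn hW hEF hTF hTG hEG o1 o2 o3 p3 o4 p4 o5 p5 hne

theorem claimA : ¬ U F G := by
  intro hFG
  have key := conn (fun M => (∃ w, M = W w) ∨ (M = EF ∧ ¬ U F EF) ∨
    (M = TF ∧ ¬ (U F EF ∧ U EF TF)) ∨ (M = EG ∧ ¬ U G EG) ∨ (M = TG ∧ ¬ (U G EG ∧ U EG TG)))
    ?_ (W 0) F (Or.inl ⟨0, rfl⟩)
  · rcases key with ⟨w, h⟩ | ⟨h, -⟩ | ⟨h, -⟩ | ⟨h, -⟩ | ⟨h, -⟩
    · exact hne.1 w h
    · exact hne.2.1 h
    · exact hne.2.2.1 h
    · exact hne.2.2.2.1 h
    · exact hne.2.2.2.2 h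
  · rintro L M hL hLM
    rcases hL with ⟨w, rfl⟩ | ⟨rfl, h⟩ | ⟨rfl, h⟩ | ⟨rfl, h⟩ | ⟨rfl, h⟩
    · rcases hW w M hLM with rfl | rfl | rfl | rfl | rfl | rfl
      · exact absurd (symm _ _ hLM) (o1 w)
      · exact absurd (symm _ _ hLM) (o2 w)
      · refine Or.inr (Or.inl ⟨rfl, fun h => o3 w h (symm _ _ hLM)⟩)
      · refine Or.inr (Or.inr (Or.inl ⟨rfl, fun h => o4 w h.1 h.2 (symm _ _ hLM)⟩))
      · refine Or.inr (Or.inr (Or.inr (Or.inl ⟨rfl, fun h => p3 w h (symm _ _ hLM)⟩)))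
      · refine Or.inr (Or.inr (Or.inr (Or.inr ⟨rfl, fun h => p4 w h.1 h.2 (symm _ _ hLM)⟩)))
    · rcases hEF M hLM with rfl | rfl | ⟨w, rfl⟩
      · exact absurd (symm _ _ hLM) h
      · exact Or.inr (Or.inr (Or.inl ⟨rfl, fun h' => h h'.1⟩))
      · exact Or.inl ⟨w, rfl⟩
    · rcases hTF M hLM with rfl | rfl | ⟨w, rfl⟩
      · exact Or.inr (Or.inl ⟨rfl, fun h' => h ⟨h', symm _ _ hLM⟩⟩)
      · exact Or.inr (Or.inr (Or.inr (Or.inr ⟨rfl, fun h' =>
          p5 h'.1 h'.2 (symm _ _ hLM) (symm _ _ hFG)⟩)))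
      · exact Or.inl ⟨w, rfl⟩
    · rcases hEG M hLM with rfl | rfl | ⟨w, rfl⟩
      · exact absurd (symm _ _ hLM) h
      · exact Or.inr (Or.inr (Or.inr (Or.inr ⟨rfl, fun h' => h h'.1⟩)))
      · exact Or.inl ⟨w, rfl⟩
    · rcases hTG M hLM with rfl | rfl | ⟨w, rfl⟩
      · exact Or.inr (Or.inr (Or.inr (Or.inl ⟨rfl, fun h' => h ⟨h', symm _ _ hLM⟩⟩)))
      · exact Or.inr (Or.inr (Or.inl ⟨rfl, fun h' => o5 h'.1 h'.2 (symm _ _ hLM) hFG⟩))
      · exact Or.inl ⟨w, rfl⟩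

theorem claimB : ∃ X : α → Prop,
    (∀ M, X M → M = EF ∨ M = TF ∨ M = TG ∨ M = EG ∨ ∃ w, M = W w) ∧
    (∀ L M, X L → U L M → X M ∨ M = F) ∧ (U F EF → X EF) := by
  by_cases a : U F EF
  · by_cases b : U G EG
    · by_cases c1 : U EF TF
      · by_cases c3 : U EG TG
        · exfalso
          have key := conn (fun M => ∃ w, M = W w) ?_ (W 0) F ⟨0, rfl⟩
          · obtain ⟨w, hw⟩ := key
            exact hne.1 w hw
          · rintro L M ⟨w, rfl⟩ hLM
            rcases hW w M hLM with rfl | rfl | rfl | rfl | rfl | rfl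
            · exact absurd (symm _ _ hLM) (o1 w)
            · exact absurd (symm _ _ hLM) (o2 w)
            · exact absurd (symm _ _ hLM) (o3 w a)
            · exact absurd (symm _ _ hLM) (o4 w a c1)
            · exact absurd (symm _ _ hLM) (p3 w b)
            · exact absurd (symm _ _ hLM) (p4 w b c3)
        · refine ⟨fun M => M = EF ∨ M = TF ∨ M = TG ∨ ∃ w, M = W w, ?_, ?_, fun _ => Or.inl rfl⟩
          · rintro M (h | h | h | h)
            · exact Or.inl h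
            · exact Or.inr (Or.inl h)
            · exact Or.inr (Or.inr (Or.inl h))
            · exact Or.inr (Or.inr (Or.inr (Or.inr h)))
          · rintro L M (rfl | rfl | rfl | ⟨w, rfl⟩) hLM
            · rcases hEF M hLM with rfl | rfl | ⟨w, rfl⟩
              · exact Or.inr rfl
              · exact Or.inl (Or.inr (Or.inl rfl))
              · exact Or.inl (Or.inr (Or.inr (Or.inr ⟨w, rfl⟩)))
            · rcases hTF M hLM with rfl | rfl | ⟨w, rfl⟩
              · exact Or.inl (Or.inl rfl)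
              · exact Or.inl (Or.inr (Or.inr (Or.inl rfl)))
              · exact Or.inl (Or.inr (Or.inr (Or.inr ⟨w, rfl⟩)))
            · rcases hTG M hLM with rfl | rfl | ⟨w, rfl⟩
              · exact absurd (symm _ _ hLM) c3
              · exact Or.inl (Or.inr (Or.inl rfl))
              · exact Or.inl (Or.inr (Or.inr (Or.inr ⟨w, rfl⟩)))
            · rcases hW w M hLM with rfl | rfl | rfl | rfl | rfl | rfl
              · exact Or.inr rfl
              · exact absurd (symm _ _ hLM) (o2 w)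
              · exact Or.inl (Or.inl rfl)
              · exact Or.inl (Or.inr (Or.inl rfl))
              · exact absurd (symm _ _ hLM) (p3 w b)
              · exact Or.inl (Or.inr (Or.inr (Or.inl rfl)))
      · refine ⟨fun M => M = EF, fun M h => Or.inl h, ?_, fun _ => rfl⟩
        rintro L M rfl hLM
        rcases hEF M hLM with rfl | rfl | ⟨w, rfl⟩
        · exact Or.inr rfl
        · exact absurd hLM c1
        · exact absurd hLM (o3 w a)
    · refine ⟨fun M => M = EF ∨ M = TF ∨ M = TG ∨ M = EG ∨ ∃ w, M = W w, fun M h => h, ?_,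
        fun _ => Or.inl rfl⟩
      rintro L M (rfl | rfl | rfl | rfl | ⟨w, rfl⟩) hLM
      · rcases hEF M hLM with rfl | rfl | ⟨w, rfl⟩
        · exact Or.inr rfl
        · exact Or.inl (Or.inr (Or.inl rfl))
        · exact Or.inl (Or.inr (Or.inr (Or.inr (Or.inr ⟨w, rfl⟩))))
      · rcases hTF M hLM with rfl | rfl | ⟨w, rfl⟩
        · exact Or.inl (Or.inl rfl)
        · exact Or.inl (Or.inr (Or.inr (Or.inl rfl)))
        · exact Or.inl (Or.inr (Or.inr (Or.inr (Or.inr ⟨w, rfl⟩))))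
      · rcases hTG M hLM with rfl | rfl | ⟨w, rfl⟩
        · exact Or.inl (Or.inr (Or.inr (Or.inr (Or.inl rfl))))
        · exact Or.inl (Or.inr (Or.inl rfl))
        · exact Or.inl (Or.inr (Or.inr (Or.inr (Or.inr ⟨w, rfl⟩))))
      · rcases hEG M hLM with rfl | rfl | ⟨w, rfl⟩
        · exact absurd (symm _ _ hLM) b
        · exact Or.inl (Or.inr (Or.inr (Or.inl rfl)))
        · exact Or.inl (Or.inr (Or.inr (Or.inr (Or.inr ⟨w, rfl⟩))))
      · rcases hW w M hLM with rfl | rfl | rfl | rfl | rfl | rfl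
        · exact Or.inr rfl
        · exact absurd (symm _ _ hLM) (o2 w)
        · exact Or.inl (Or.inl rfl)
        · exact Or.inl (Or.inr (Or.inl rfl))
        · exact Or.inl (Or.inr (Or.inr (Or.inr (Or.inl rfl))))
        · exact Or.inl (Or.inr (Or.inr (Or.inl rfl)))
  · exact ⟨fun _ => False, fun _ h => h.elim, fun _ _ h => h.elim, fun h => a h⟩

end

end Pool.Agent.Run7.h207.Ortho
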