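import Pool.Agent.Run7.h207.Ortho.Check3

/-! # The polyhedron: a box with four ridges -/

set_option autoImplicit false

namespace Pool.Agent.Run7.h207.Ortho

open Relation

def inBase (x y z : ℤ) : Bool :=
  decide (0 ≤ x) && decide (x < 6) && decide (0 ≤ y) && decide (y < 5) && decide (0 ≤ z) &&
    decide (z < 6)

def inTop (x y z : ℤ) : Bool :=
  decide (x = 1) && decide (-2 ≤ y) && decide (z < 8) &&
    ((decide (y < 0) && decide (3 ≤ z)) || (decide (y < 3) && decide (6 ≤ z)))

def inBot (x y z : ℤ) : Bool :=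
  decide (x = 4) && decide (-2 ≤ y) && decide (-2 ≤ z) &&
    ((decide (y < 0) && decide (z < 3)) || (decide (y < 3) && decide (z < 0)))

def inLeft (x y z : ℤ) : Bool :=
  decide (z = 1) && decide (-2 ≤ y) && decide (-2 ≤ x) &&
    ((decide (y < 0) && decide (x < 3)) || (decide (y < 3) && decide (x < 0)))

def inRight (x y z : ℤ) : Bool :=
  decide (z = 4) && decide (-2 ≤ y) && decide (x < 8) &&
    ((decide (y < 0) && decide (3 ≤ x)) || (decide (y < 3) && decide (6 ≤ x)))

def inK (x y z : ℤ) : Bool :=
  inBase x y z || inTop x y z || inBot x y z || inLeft x y z || inRight x y z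

theorem inK_rng (x y z : ℤ) (h : inK x y z = true) : x ∈ rng ∧ y ∈ rng ∧ z ∈ rng := by
  simp only [inK, inBase, inTop, inBot, inLeft, inRight, Bool.or_eq_true, Bool.and_eq_true,
    decide_eq_true_eq] at h
  rw [mem_rng, mem_rng, mem_rng]
  omega

set_option maxRecDepth 100000 in
theorem check3 : solid3B inK = true := by
  decide +kernel

end Pool.Agent.Run7.h207.Ortho
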