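import Pool.Agent.Run7.h207.Ortho.Fold
import Pool.Agent.Run7.h207.Ortho.Poly

/-! # The thirty faces -/

set_option autoImplicit false

namespace Pool.Agent.Run7.h207.Ortho

open Relation

def inKT (c : T3) : Bool := inK c.1 c.2.1 c.2.2

/-- the part: four ridges and the box -/
def part (c : T3) : Fin 5 :=
  bif inTop c.1 c.2.1 c.2.2 then 0 else
  bif inBot c.1 c.2.1 c.2.2 then 1 else
  bif inLeft c.1 c.2.1 c.2.2 then 2 else
  bif inRight c.1 c.2.1 c.2.2 then 3 else 4

abbrev Lab := Fin 5 × Fin 6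

def isSq (c : T3) (L : Lab) : Bool := inKT c && !inKT (c + dv L.2) && decide (part c = L.1)

/-- the polyhedron -/
def KK : Set (Pt 3) := {a | inK (a 0) (a 1) (a 2) = true}

theorem mem_KK (c : T3) : pt c ∈ KK ↔ inKT c = true := Iff.rfl

theorem sq_mem_KK {c : T3} {i : Fin 6} :
    sq c i ∈ Bd KK ↔ inKT c = true ∧ inKT (c + dv i) = false := by
  rw [sq_mem, mem_KK, mem_KK]
  simp

def cellsK : List T3 := cells3 inK

theorem mem_cellsK {c : T3} (h : inKT c = true) : c ∈ cellsK := by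
  obtain ⟨h1, h2, h3⟩ := inK_rng _ _ _ h
  unfold cellsK cells3
  rw [List.mem_filter]
  refine ⟨?_, h⟩
  obtain ⟨x, y, z⟩ := c
  exact List.pair_mem_product.2 ⟨h1, List.pair_mem_product.2 ⟨h2, h3⟩⟩

/-- the coordinate of the cells of a face along its normal -/
def lev : Lab → ℤ
  | (0, 0) => 1
  | (0, 1) => 1
  | (0, 2) => 2
  | (0, 3) => -2
  | (0, 4) => 7
  | (0, 5) => 3
  | (1, 0) => 4
  | (1, 1) => 4
  | (1, 2) => 2
  | (1, 3) => -2
  | (1, 4) => 2
  | (1, 5) => -2
  | (2, 0) => 2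
  | (2, 1) => -2
  | (2, 2) => 2
  | (2, 3) => -2
  | (2, 4) => 1
  | (2, 5) => 1
  | (3, 0) => 7
  | (3, 1) => 3
  | (3, 2) => 2
  | (3, 3) => -2
  | (3, 4) => 4
  | (3, 5) => 4
  | (4, 0) => 5
  | (4, 1) => 0
  | (4, 2) => 4
  | (4, 3) => 0
  | (4, 4) => 5
  | (4, 5) => 0

def coord (a : Fin 3) (c : T3) : ℤ :=
  match a with
  | 0 => c.1
  | 1 => c.2.1
  | 2 => c.2.2

def dotT (x : T3) (i : Fin 6) : ℤ := sgn i * coord (ax i) x

theorem dot_pt (x : T3) (i : Fin 6) : dot (pt x) i = dotT x i := by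
  unfold dot dotT
  congr 1
  generalize ax i = a
  fin_cases a <;> rfl

/-- the offset of the plane of a face, in doubled coordinates -/
def off (L : Lab) : ℤ := sgn L.2 * (2 * lev L + 1) + 1

/-- the face of the box crossed by a ridge besides the front face -/
def gg : Fin 5 → Fin 6
  | 0 => 4
  | 1 => 5
  | 2 => 1
  | 3 => 0
  | 4 => 3

/-- possible adjacencies -/
def okH (L M : Lab) : Bool :=
  (decide (L.1 = 4) && decide (M.1 = 4)) ||
  (decide (L.1 = M.1) && !(decide (L.2 = opp (gg L.1)) && decide (M.2 = 2)) &&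
    !(decide (M.2 = opp (gg L.1)) && decide (L.2 = 2))) ||
  (decide (L.1 ≠ 4) && decide (M = (4, 3)) && decide (L.2 ≠ gg L.1)) ||
  (decide (L.1 ≠ 4) && decide (M = (4, gg L.1)) && decide (L.2 ≠ 3))

def okAdj (L M : Lab) : Bool := decide (ax L.2 ≠ ax M.2) && (okH L M || okH M L)

def nbrB (c : T3) (i j : Fin 6) : Bool :=
  inKT (c + dv i) || decide (ax j = ax i) ||
   ((!(inKT (c + dv j) && !inKT (c + dv j + dv i)) || decide (part (c + dv j) = part c)) &&
    (inKT (c + dv j) || okAdj (part c, i) (part c, j)) &&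
    (!inKT (c + dv i + dv j) ||
      (inKT (c + dv j) && okAdj (part c, i) (part (c + dv i + dv j), opp j))))

def offB (c : T3) (i : Fin 6) : Bool :=
  inKT (c + dv i) || decide (coord (ax i) c = lev (part c, i))

set_option maxRecDepth 100000 in
theorem nbr_check : ∀ c ∈ cellsK, ∀ i j : Fin 6, nbrB c i j = true := by
  decide +kernel

set_option maxRecDepth 100000 in
theorem off_check : ∀ c ∈ cellsK, ∀ i : Fin 6, offB c i = true := by
  decide +kernel

set_option maxRecDepth 100000 in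
theorem class_check : ∀ L : Lab, connB adj3 (cellsK.filter fun c => isSq c L) = true := by
  decide +kernel

set_option maxRecDepth 100000 in
theorem class_ne : ∀ L : Lab, (cellsK.filter fun c => isSq c L) ≠ [] := by
  decide +kernel

end Pool.Agent.Run7.h207.Ortho
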