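import Pool.Agent.Run7.h207.Ortho.Chain
import Pool.Agent.Run7.h207.Ortho.Graph

/-! # No edge unfolding -/

set_option autoImplicit false

namespace Pool.Agent.Run7.h207.Ortho

open Relation

def FF : Lab := (4, 3)
def GG (r : Fin 4) : Lab := (4, gg r.castSucc)
def EF (r : Fin 4) : Lab := (r.castSucc, opp (gg r.castSucc))
def TF (r : Fin 4) : Lab := (r.castSucc, 3)
def TG (r : Fin 4) : Lab := (r.castSucc, gg r.castSucc)
def EG (r : Fin 4) : Lab := (r.castSucc, 2)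
def Wd : Fin 4 → Fin 2 → Fin 6 := ![![0, 1], ![0, 1], ![4, 5], ![4, 5]]
def WW (r : Fin 4) (w : Fin 2) : Lab := (r.castSucc, Wd r w)

/-! overlapping squares -/

def w1 : Fin 4 → Fin 2 → T3 × T3 :=
  ![![((1, -2, 3), (0, 0, 3)), ((1, -2, 3), (2, 0, 3))],
    ![((4, -2, 0), (3, 0, 0)), ((4, -2, 0), (5, 0, 0))],
    ![((0, -2, 1), (0, 0, 0)), ((0, -2, 1), (0, 0, 2))],
    ![((3, -2, 4), (3, 0, 3)), ((3, -2, 4), (3, 0, 5))]]

def w2 : Fin 4 → Fin 2 → T3 × T3 :=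
  ![![((1, 0, 7), (0, 0, 5)), ((1, 0, 7), (2, 0, 5))],
    ![((4, 0, -2), (3, 0, 0)), ((4, 0, -2), (5, 0, 0))],
    ![((-2, 0, 1), (0, 0, 0)), ((-2, 0, 1), (0, 0, 2))],
    ![((7, 0, 4), (5, 0, 3)), ((7, 0, 4), (5, 0, 5))]]

def w3 : Fin 4 → Fin 2 → T3 × T3 :=
  ![![((1, -2, 3), (2, 0, 4)), ((1, -2, 3), (0, 0, 4))],
    ![((4, -2, 2), (5, 0, 1)), ((4, -1, -1), (0, 0, 2))],
    ![((-1, -1, 1), (2, 0, 5)), ((2, -2, 1), (1, 0, 0))],
    ![((3, -2, 4), (4, 0, 5)), ((3, -2, 4), (4, 0, 3))]]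

def v3 : Fin 4 → Fin 2 → T3 × T3 :=
  ![![((1, -1, 4), (5, 4, 5)), ((1, 2, 6), (0, 2, 5))],
    ![((4, 2, -2), (5, 1, 0)), ((4, -1, -2), (0, 1, 0))],
    ![((-2, -1, 1), (0, 1, 5)), ((-2, 2, 1), (0, 1, 0))],
    ![((7, 2, 4), (5, 1, 5)), ((4, -1, 4), (5, 4, 0))]]

def w4 : Fin 4 → Fin 2 → T3 × T3 :=
  ![![((1, -2, 3), (2, 0, 5)), ((1, -2, 3), (0, 0, 5))],
    ![((4, -2, 2), (5, 0, 0)), ((4, -2, 2), (3, 0, 0))],
    ![((2, -2, 1), (0, 0, 2)), ((2, -2, 1), (0, 0, 0))],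
    ![((3, -2, 4), (5, 0, 5)), ((3, -2, 4), (5, 0, 3))]]

def v4 : Fin 4 → Fin 2 → T3 × T3 :=
  ![![((1, 2, 6), (3, 0, 5)), ((1, 2, 7), (0, 0, 5))],
    ![((4, 2, -2), (5, 0, 0)), ((4, 2, -2), (3, 0, 0))],
    ![((-2, 2, 1), (0, 0, 2)), ((-2, 2, 1), (0, 0, 0))],
    ![((7, 2, 4), (5, 0, 5)), ((7, 2, 4), (5, 0, 3))]]

def w5 : Fin 4 → T3 × T3 :=
  ![((1, -2, 7), (1, 4, 5)),
    ((4, -2, -2), (4, 4, 0)),
    ((-2, -2, 1), (0, 4, 1)),
    ((7, -2, 4), (5, 4, 4))]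

def v5 : Fin 4 → T3 × T3 :=
  ![((1, -2, 6), (1, 0, 0)),
    ((4, -2, -1), (4, 0, 5)),
    ((-1, -2, 1), (5, 0, 1)),
    ((6, -2, 4), (0, 0, 4))]

theorem c1 : ∀ r w, goodOv FF [WW r w] [] (w1 r w) = true := by decide +kernel
theorem c2 : ∀ r w, goodOv (GG r) [WW r w] [] (w2 r w) = true := by decide +kernel
theorem c3 : ∀ r w, goodOv FF [EF r, WW r w] [] (w3 r w) = true := by decide +kernel
theorem d3 : ∀ r w, goodOv (GG r) [EG r, WW r w] [] (v3 r w) = true := by decide +kernel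
theorem c4 : ∀ r w, goodOv FF [EF r, TF r, WW r w] [] (w4 r w) = true := by decide +kernel
theorem d4 : ∀ r w, goodOv (GG r) [EG r, TG r, WW r w] [] (v4 r w) = true := by decide +kernel
theorem c5 : ∀ r, goodOv FF [EF r, TF r, TG r] [GG r] (w5 r) = true := by decide +kernel
theorem d5 : ∀ r, goodOv (GG r) [EG r, TG r, TF r] [FF] (v5 r) = true := by decide +kernel

/-! possible neighbours -/

theorem nW : ∀ r w M, okAdj (WW r w) M = true →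
    M = FF ∨ M = GG r ∨ M = EF r ∨ M = TF r ∨ M = EG r ∨ M = TG r := by decide +kernel
theorem nEF : ∀ r M, okAdj (EF r) M = true → M = FF ∨ M = TF r ∨ ∃ w, M = WW r w := by
  decide +kernel
theorem nTF : ∀ r M, okAdj (TF r) M = true → M = EF r ∨ M = TG r ∨ ∃ w, M = WW r w := by
  decide +kernel
theorem nTG : ∀ r M, okAdj (TG r) M = true → M = EG r ∨ M = TF r ∨ ∃ w, M = WW r w := by
  decide +kernel
theorem nEG : ∀ r M, okAdj (EG r) M = true → M = GG r ∨ M = TG r ∨ ∃ w, M = WW r w := by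
  decide +kernel
theorem nFF : ∀ M, okAdj FF M = true → (∃ r, M = GG r) ∨ (∃ r, M = EF r) ∨ ∃ r w, M = WW r w := by
  decide +kernel
theorem neF : ∀ r, (∀ w, FF ≠ WW r w) ∧ FF ≠ EF r ∧ FF ≠ TF r ∧ FF ≠ EG r ∧ FF ≠ TG r := by
  decide +kernel
theorem neG : ∀ r, ¬ (GG 0 = EF r ∨ GG 0 = TF r ∨ GG 0 = TG r ∨ GG 0 = EG r ∨
    ∃ w, GG 0 = WW r w) := by
  decide +kernel

theorem conn_UU {cut : Set (Sym2 (Pt 3))} {φ : Pt 3 × Pt 3 → Pt 3 → ℂ}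
    (h : IsEdgeUnfolding KK cut φ) (X : Lab → Prop) (hX : ∀ L M, X L → UU cut L M → X M) :
    ∀ L M, X L → X M := by
  intro L M hL
  obtain ⟨a, ha⟩ := exists_isSq L
  obtain ⟨b, hb⟩ := exists_isSq M
  have ha' := isSq_iff.1 ha
  have hb' := isSq_iff.1 hb
  have key : ∀ t, ReflTransGen (fun a b => a ∈ Bd KK ∧ b ∈ Bd KK ∧ ∃ p q, Uncut cut a b p q)
      (sq a L.2) t → ∃ c i, t = sq c i ∧ X (part c, i) := by
    intro t ht
    induction ht with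
    | refl => exact ⟨a, L.2, rfl, by rw [ha'.2]; exact hL⟩
    | tail _ h2 ih =>
      obtain ⟨c, i, rfl, hc⟩ := ih
      obtain ⟨h3, h4, p, q, h5⟩ := h2
      obtain ⟨c', i', rfl⟩ := exists_sq h4
      refine ⟨c', i', rfl, ?_⟩
      by_cases he : (part c, i) = (part c', i')
      · rw [← he]; exact hc
      · exact hX _ _ hc ⟨he, c, c', p, q, isSq_iff.2 ⟨h3, rfl⟩, isSq_iff.2 ⟨h4, rfl⟩, h5⟩
  obtain ⟨c, i, h1, h2⟩ := key _ (h.connected _ ha'.1 _ hb'.1)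
  obtain ⟨h3, h4⟩ := sq_inj h1
  rw [← h3, ← h4, hb'.2] at h2
  exact h2

theorem no_unfolding : ¬ HasEdgeUnfolding KK := by
  rintro ⟨cut, φ, h⟩
  have symm : ∀ a b, UU cut a b → UU cut b a := fun a b => UU_symm
  have conn := conn_UU h
  have o1 : ∀ r w, ¬ UU cut FF (WW r w) := fun r w a => no_overlap h (c1 r w) ⟨a, trivial⟩ trivial
  have o2 : ∀ r w, ¬ UU cut (GG r) (WW r w) := fun r w a =>
    no_overlap h (c2 r w) ⟨a, trivial⟩ trivial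
  have o3 : ∀ r w, UU cut FF (EF r) → ¬ UU cut (EF r) (WW r w) := fun r w a b =>
    no_overlap h (c3 r w) ⟨a, b, trivial⟩ trivial
  have p3 : ∀ r w, UU cut (GG r) (EG r) → ¬ UU cut (EG r) (WW r w) := fun r w a b =>
    no_overlap h (d3 r w) ⟨a, b, trivial⟩ trivial
  have o4 : ∀ r w, UU cut FF (EF r) → UU cut (EF r) (TF r) → ¬ UU cut (TF r) (WW r w) :=
    fun r w a b c => no_overlap h (c4 r w) ⟨a, b, c, trivial⟩ trivial
  have p4 : ∀ r w, UU cut (GG r) (EG r) → UU cut (EG r) (TG r) → ¬ UU cut (TG r) (WW r w) :=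
    fun r w a b c => no_overlap h (d4 r w) ⟨a, b, c, trivial⟩ trivial
  have o5 : ∀ r, UU cut FF (EF r) → UU cut (EF r) (TF r) → UU cut (TF r) (TG r) →
      ¬ UU cut FF (GG r) :=
    fun r a b c d => no_overlap h (c5 r) ⟨a, b, c, trivial⟩ ⟨d, trivial⟩
  have p5 : ∀ r, UU cut (GG r) (EG r) → UU cut (EG r) (TG r) → UU cut (TG r) (TF r) →
      ¬ UU cut (GG r) FF :=
    fun r a b c d => no_overlap h (d5 r) ⟨a, b, c, trivial⟩ ⟨d, trivial⟩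
  have hW : ∀ r w M, UU cut (WW r w) M →
      M = FF ∨ M = GG r ∨ M = EF r ∨ M = TF r ∨ M = EG r ∨ M = TG r := fun r w M a =>
    nW r w M (UU_ok a)
  have hEF : ∀ r M, UU cut (EF r) M → M = FF ∨ M = TF r ∨ ∃ w, M = WW r w := fun r M a =>
    nEF r M (UU_ok a)
  have hTF : ∀ r M, UU cut (TF r) M → M = EF r ∨ M = TG r ∨ ∃ w, M = WW r w := fun r M a =>
    nTF r M (UU_ok a)
  have hTG : ∀ r M, UU cut (TG r) M → M = EG r ∨ M = TF r ∨ ∃ w, M = WW r w := fun r M a =>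
    nTG r M (UU_ok a)
  have hEG : ∀ r M, UU cut (EG r) M → M = GG r ∨ M = TG r ∨ ∃ w, M = WW r w := fun r M a =>
    nEG r M (UU_ok a)
  have hA : ∀ r, ¬ UU cut FF (GG r) := fun r =>
    claimA symm conn (hW r) (hEF r) (hTF r) (hTG r) (hEG r) (o1 r) (o2 r) (o3 r) (p3 r) (o4 r)
      (p4 r) (o5 r) (p5 r) (neF r)
  have hB := fun r =>
    claimB symm conn (hW r) (hEF r) (hTF r) (hTG r) (hEG r) (o1 r) (o2 r) (o3 r) (p3 r) (o4 r)
      (p4 r) (o5 r) (p5 r) (neF r)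
  choose X hX1 hX2 hX3 using hB
  have key := conn (fun M => M = FF ∨ ∃ r, X r M) ?_ FF (GG 0) (Or.inl rfl)
  · rcases key with hk | ⟨r, hk⟩
    · exact absurd hk (by decide)
    · exact neG r (hX1 r _ hk)
  · rintro L M (rfl | ⟨r, hL⟩) hLM
    · rcases nFF M (UU_ok hLM) with ⟨r, rfl⟩ | ⟨r, rfl⟩ | ⟨r, w, rfl⟩
      · exact absurd hLM (hA r)
      · exact Or.inr ⟨r, hX3 r hLM⟩
      · exact absurd hLM (o1 r w)
    · rcases hX2 r L M hL hLM with hM | hM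
      · exact Or.inr ⟨r, hM⟩
      · exact Or.inl hM

theorem main : ∃ K : Set (Pt 3), Orthostack K ∧ SimpleFaces K ∧ ¬ HasEdgeUnfolding K :=
  ⟨KK, orthostack_KK, simpleFaces_KK, no_unfolding⟩

end Pool.Agent.Run7.h207.Ortho
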